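import Pool.Agent.Y282.PropAlpha

set_option autoImplicit false
set_option linter.unusedSectionVars false

open Topology

namespace Pool.Agent.Y282.PA

section Quot

variable (𝕜 : Type*) [RCLike 𝕜] (V : Type*) [NormedAddCommGroup V] [NormedSpace 𝕜 V]
  [CompleteSpace V]

/-- The unit sphere. -/
abbrev Sph (V : Type*) [NormedAddCommGroup V] : Type _ := {x : V // ‖x‖ = 1}

/-- The index set: two copies of the unit sphere. -/
abbrev Ind (V : Type*) [NormedAddCommGroup V] : Type _ := Sph V × Bool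

noncomputable instance : DecidableEq (Ind V) := Classical.decEq _

/-- `a ↦ ∑ a(s,±) s`. -/
noncomputable def q : L1 𝕜 (Ind V) →L[𝕜] V :=
  sumMap (fun i : Ind V => (i.1 : V)) (fun i => i.1.2.le)

/-- `a ↦ a(s,+) - a(s,-)`. -/
noncomputable def d (s : Sph V) : L1 𝕜 (Ind V) →L[𝕜] 𝕜 :=
  LinearMap.mkContinuous
    { toFun := fun a => a (s, true) - a (s, false)
      map_add' := by
        intro a b
        rw [lp.coeFn_add, Pi.add_apply, Pi.add_apply]; ring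
      map_smul' := by
        intro c a
        rw [lp.coeFn_smul, Pi.smul_apply, Pi.smul_apply, smul_eq_mul, smul_eq_mul, RingHom.id_apply,
          smul_eq_mul]
        ring } 1 (by
    intro a
    change ‖a (s, true) - a (s, false)‖ ≤ 1 * ‖a‖
    have h1 := (summable_norm a).sum_le_tsum {(s, true), (s, false)} (fun i _ => norm_nonneg _)
    rw [Finset.sum_pair (by simp)] at h1
    rw [one_mul, norm_eq]
    exact (norm_sub_le _ _).trans h1)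

theorem d_apply (s : Sph V) (a : L1 𝕜 (Ind V)) : d 𝕜 V s a = a (s, true) - a (s, false) := rfl

theorem norm_d_le (s : Sph V) : ‖d 𝕜 V s‖ ≤ 1 :=
  LinearMap.mkContinuous_norm_le _ zero_le_one _

/-- The kernel subspace. -/
noncomputable def K : Submodule 𝕜 (L1 𝕜 (Ind V)) :=
  LinearMap.ker (q 𝕜 V).toLinearMap ⊓ ⨅ s : Sph V, LinearMap.ker (d 𝕜 V s).toLinearMap

theorem mem_K (a : L1 𝕜 (Ind V)) : a ∈ K 𝕜 V ↔ q 𝕜 V a = 0 ∧ ∀ s, d 𝕜 V s a = 0 := by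
  simp [K]

instance isClosed_K : IsClosed (K 𝕜 V : Set (L1 𝕜 (Ind V))) := by
  have : (K 𝕜 V : Set (L1 𝕜 (Ind V))) = {a | q 𝕜 V a = 0} ∩ ⋂ s, {a | d 𝕜 V s a = 0} := by
    ext a
    simp [mem_K]
  rw [this]
  refine (isClosed_eq (q 𝕜 V).continuous continuous_const).inter ?_
  exact isClosed_iInter fun s => isClosed_eq (d 𝕜 V s).continuous continuous_const

/-- The space with property alpha. -/
abbrev X : Type _ := L1 𝕜 (Ind V) ⧸ K 𝕜 V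

noncomputable instance : NormedAddCommGroup (X 𝕜 V) := Submodule.Quotient.normedAddCommGroup (K 𝕜 V)

noncomputable instance : NormedSpace 𝕜 (X 𝕜 V) := Submodule.Quotient.normedSpace (K 𝕜 V) 𝕜

instance : CompleteSpace (X 𝕜 V) := Submodule.Quotient.completeSpace (K 𝕜 V)

/-- The quotient map. -/
noncomputable abbrev mk (a : L1 𝕜 (Ind V)) : X 𝕜 V := Submodule.Quotient.mk a

theorem norm_mk_le (a : L1 𝕜 (Ind V)) : ‖mk 𝕜 V a‖ ≤ ‖a‖ := Submodule.Quotient.norm_mk_le _ a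

variable {W : Type*} [NormedAddCommGroup W] [NormedSpace 𝕜 W]

/-- Lift of an operator vanishing on `K`, with norm control. -/
noncomputable def lift (T : L1 𝕜 (Ind V) →L[𝕜] W) (hT : ∀ a ∈ K 𝕜 V, T a = 0) : X 𝕜 V →L[𝕜] W :=
  LinearMap.mkContinuous ((K 𝕜 V).liftQ T.toLinearMap (fun a ha => hT a ha)) ‖T‖ (by
    intro x
    apply le_of_forall_pos_le_add
    intro δ hδ
    obtain ⟨a, rfl, ha⟩ := Submodule.Quotient.norm_mk_lt x
      (show 0 < δ / (‖T‖ + 1) by positivity)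
    have h1 := T.le_opNorm a
    have h2 : ‖T‖ * (δ / (‖T‖ + 1)) ≤ δ := by
      rw [mul_div_assoc', div_le_iff₀ (by positivity)]
      nlinarith [norm_nonneg T]
    have h3 : ‖T‖ * ‖a‖ ≤ ‖T‖ * (‖(Submodule.Quotient.mk a : L1 𝕜 (Ind V) ⧸ K 𝕜 V)‖
        + δ / (‖T‖ + 1)) := mul_le_mul_of_nonneg_left ha.le (norm_nonneg _)
    change ‖T a‖ ≤ _
    linarith)

theorem lift_mk (T : L1 𝕜 (Ind V) →L[𝕜] W) (hT : ∀ a ∈ K 𝕜 V, T a = 0) (a : L1 𝕜 (Ind V)) :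
    lift 𝕜 V T hT (mk 𝕜 V a) = T a := rfl

theorem norm_lift_le (T : L1 𝕜 (Ind V) →L[𝕜] W) (hT : ∀ a ∈ K 𝕜 V, T a = 0) :
    ‖lift 𝕜 V T hT‖ ≤ ‖T‖ :=
  LinearMap.mkContinuous_norm_le _ (norm_nonneg _) _

/-- The quotient map as a bounded operator. -/
noncomputable def mkL : L1 𝕜 (Ind V) →L[𝕜] X 𝕜 V :=
  LinearMap.mkContinuous (K 𝕜 V).mkQ 1 (by
    intro a
    rw [one_mul]
    exact norm_mk_le 𝕜 V a)

theorem mkL_apply (a : L1 𝕜 (Ind V)) : mkL 𝕜 V a = mk 𝕜 V a := rfl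

/-- The points with respect to which `X` has property alpha. -/
noncomputable def pt (i : Ind V) : X 𝕜 V := mk 𝕜 V (e 𝕜 i)

theorem norm_le_of_pt (T : X 𝕜 V →L[𝕜] W) (C : ℝ) (hC : 0 ≤ C)
    (hT : ∀ i, ‖T (pt 𝕜 V i)‖ ≤ C) : ‖T‖ ≤ C := by
  apply ContinuousLinearMap.opNorm_le_bound _ hC
  intro x
  apply le_of_forall_pos_le_add
  intro δ hδ
  obtain ⟨a, rfl, ha⟩ := Submodule.Quotient.norm_mk_lt x (show 0 < δ / (C + 1) by positivity)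
  have h1 : ‖(T.comp (mkL 𝕜 V)) a‖ ≤ C * ‖a‖ :=
    norm_apply_le (T.comp (mkL 𝕜 V)) C (fun i => hT i) a
  have h2 : C * (δ / (C + 1)) ≤ δ := by
    rw [mul_div_assoc', div_le_iff₀ (by positivity)]
    nlinarith
  have h3 : C * ‖a‖ ≤ C * (‖(Submodule.Quotient.mk a : L1 𝕜 (Ind V) ⧸ K 𝕜 V)‖
        + δ / (C + 1)) := mul_le_mul_of_nonneg_left ha.le hC
  change ‖T (mkL 𝕜 V a)‖ ≤ _
  change ‖T (mkL 𝕜 V a)‖ ≤ _ at h1
  linarith

theorem d_e_same (s : Sph V) (b : Bool) :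
    d 𝕜 V s (e 𝕜 (s, b)) = if b then 1 else -1 := by
  rw [d_apply, e_apply, e_apply]
  cases b <;> simp

theorem d_e_ne (s t : Sph V) (b : Bool) (h : s ≠ t) : d 𝕜 V s (e 𝕜 (t, b)) = 0 := by
  rw [d_apply, e_apply, e_apply]
  simp [h]

/-- A norming functional. -/
theorem exists_g (s : Sph V) : ∃ g : V →L[𝕜] 𝕜, ‖g‖ = 1 ∧ g s = 1 := by
  have hs : ‖(s : V)‖ ≠ 0 := by
    rw [s.2]; exact one_ne_zero
  obtain ⟨g, hg1, hg2⟩ := exists_dual_vector 𝕜 (s : V) hs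
  refine ⟨g, hg1, ?_⟩
  rw [hg2, s.2]
  simp

/-- The norming functional of `s`. -/
noncomputable def g (s : Sph V) : V →L[𝕜] 𝕜 := (exists_g 𝕜 V s).choose

theorem norm_g (s : Sph V) : ‖g 𝕜 V s‖ = 1 := (exists_g 𝕜 V s).choose_spec.1

theorem g_self (s : Sph V) : g 𝕜 V s s = 1 := (exists_g 𝕜 V s).choose_spec.2

theorem norm_g_apply_le (s t : Sph V) : ‖g 𝕜 V s t‖ ≤ 1 := by
  have := (g 𝕜 V s).le_opNorm t
  rwa [norm_g, t.2, mul_one] at this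

/-- The sign. -/
def sg (𝕜 : Type*) [RCLike 𝕜] (b : Bool) : 𝕜 := if b then 1 else -1

theorem norm_sg (b : Bool) : ‖sg 𝕜 b‖ = 1 := by
  cases b <;> simp [sg]

/-- The functionals on `ℓ¹`. -/
noncomputable def f0 (i : Ind V) : L1 𝕜 (Ind V) →L[𝕜] 𝕜 :=
  (1 / 2 : 𝕜) • ((g 𝕜 V i.1).comp (q 𝕜 V) + sg 𝕜 i.2 • d 𝕜 V i.1)

theorem f0_apply (i : Ind V) (a : L1 𝕜 (Ind V)) :
    f0 𝕜 V i a = (1 / 2 : 𝕜) * (g 𝕜 V i.1 (q 𝕜 V a) + sg 𝕜 i.2 * d 𝕜 V i.1 a) := rfl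

theorem q_e (i : Ind V) : q 𝕜 V (e 𝕜 i) = (i.1 : V) := sumMap_e _ _ i

/-- The functionals. -/
noncomputable def f (i : Ind V) : X 𝕜 V →L[𝕜] 𝕜 :=
  lift 𝕜 V (f0 𝕜 V i) (by
    intro a ha
    rw [mem_K] at ha
    rw [f0_apply, ha.1, ha.2 i.1]
    simp)

theorem norm_half : ‖(1 / 2 : 𝕜)‖ = 1 / 2 := by
  rw [norm_div, norm_one, RCLike.norm_ofNat]

theorem norm_q_le : ‖q 𝕜 V‖ ≤ 1 := norm_sumMap_le _ _

theorem norm_f_le (i : Ind V) : ‖f 𝕜 V i‖ ≤ 1 := by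
  refine (norm_lift_le 𝕜 V _ _).trans ?_
  unfold f0
  rw [norm_smul, norm_half]
  have h1 : ‖(g 𝕜 V i.1).comp (q 𝕜 V)‖ ≤ 1 := by
    refine (ContinuousLinearMap.opNorm_comp_le _ _).trans ?_
    rw [norm_g, one_mul]
    exact norm_q_le 𝕜 V
  have h2 : ‖sg 𝕜 i.2 • d 𝕜 V i.1‖ ≤ 1 := by
    rw [norm_smul, norm_sg, one_mul]
    exact norm_d_le 𝕜 V _
  have h3 := norm_add_le ((g 𝕜 V i.1).comp (q 𝕜 V)) (sg 𝕜 i.2 • d 𝕜 V i.1)
  linarith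

theorem f_pt (i j : Ind V) : f 𝕜 V i (pt 𝕜 V j) = f0 𝕜 V i (e 𝕜 j) := rfl

theorem f_pt_self (i : Ind V) : f 𝕜 V i (pt 𝕜 V i) = 1 := by
  rw [f_pt, f0_apply, q_e, g_self, d_e_same]
  obtain ⟨s, b⟩ := i
  cases b <;> simp [sg] <;> norm_num

theorem f_pt_ne (i j : Ind V) (h : i ≠ j) : ‖f 𝕜 V i (pt 𝕜 V j)‖ ≤ 1 / 2 := by
  rw [f_pt, f0_apply, q_e]
  obtain ⟨s, b⟩ := i
  obtain ⟨t, b'⟩ := j
  by_cases hst : s = t
  · subst hst
    have hb : b ≠ b' := fun hh => h (by rw [hh])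
    have : g 𝕜 V s s + sg 𝕜 b * d 𝕜 V s (e 𝕜 (s, b')) = 0 := by
      rw [g_self, d_e_same]
      cases b <;> cases b' <;> simp [sg] at hb ⊢
    change ‖(1 / 2 : 𝕜) * (g 𝕜 V s s + sg 𝕜 b * d 𝕜 V s (e 𝕜 (s, b')))‖ ≤ 1 / 2
    rw [this, mul_zero, norm_zero]
    norm_num
  · change ‖(1 / 2 : 𝕜) * (g 𝕜 V s t + sg 𝕜 b * d 𝕜 V s (e 𝕜 (t, b')))‖ ≤ 1 / 2
    rw [d_e_ne 𝕜 V s t b' hst, mul_zero, add_zero, norm_mul, norm_half]
    have := norm_g_apply_le 𝕜 V s t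
    linarith

theorem norm_pt (i : Ind V) : ‖pt 𝕜 V i‖ = 1 := by
  apply le_antisymm
  · refine (norm_mk_le 𝕜 V _).trans ?_
    rw [norm_e]
  · have h1 := (f 𝕜 V i).le_opNorm (pt 𝕜 V i)
    rw [f_pt_self, norm_one] at h1
    have h2 := norm_f_le 𝕜 V i
    nlinarith [norm_nonneg (pt 𝕜 V i)]

include 𝕜 in
omit [CompleteSpace V] in
theorem exists_norm_one [Nontrivial V] : ∃ v : V, ‖v‖ = 1 := by
  obtain ⟨x, hx⟩ := exists_ne (0 : V)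
  refine ⟨((‖x‖ : 𝕜)⁻¹) • x, ?_⟩
  rw [norm_smul, norm_inv, RCLike.norm_ofReal, abs_norm]
  exact inv_mul_cancel₀ (norm_ne_zero_iff.2 hx)

/-- All operators from `X` can be approximated by norm-attaining ones. -/
theorem dense_NA [Nontrivial V] (Z : Type*) [NormedAddCommGroup Z] [NormedSpace 𝕜 Z] :
    Dense {T : X 𝕜 V →L[𝕜] Z | ∃ u : X 𝕜 V, ‖u‖ = 1 ∧ ‖T u‖ = ‖T‖} := by
  obtain ⟨v, hv⟩ := exists_norm_one 𝕜 V
  have : Nonempty (Ind V) := ⟨(⟨v, hv⟩, true)⟩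
  exact dense_of_alpha (pt 𝕜 V) (f 𝕜 V) (fun T C hC hT => norm_le_of_pt 𝕜 V T C hC hT)
    (norm_pt 𝕜 V) (f_pt_self 𝕜 V) (f_pt_ne 𝕜 V) (norm_f_le 𝕜 V)

/-- The projection onto `V`, as a map to `V`. -/
noncomputable def P1 : X 𝕜 V →L[𝕜] V :=
  lift 𝕜 V (q 𝕜 V) (fun a ha => ((mem_K 𝕜 V a).1 ha).1)

theorem P1_mk (a : L1 𝕜 (Ind V)) : P1 𝕜 V (mk 𝕜 V a) = q 𝕜 V a := rfl

theorem norm_P1_le : ‖P1 𝕜 V‖ ≤ 1 := (norm_lift_le 𝕜 V _ _).trans (norm_q_le 𝕜 V)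

/-- Every vector of `V` is represented by a diagonal element of no larger norm. -/
theorem exists_rep (x : V) : ∃ a : L1 𝕜 (Ind V), (∀ s, d 𝕜 V s a = 0) ∧ q 𝕜 V a = x ∧
    ‖a‖ ≤ ‖x‖ := by
  by_cases hx : x = 0
  · refine ⟨0, ?_, ?_, ?_⟩
    · intro s; simp
    · simp [hx]
    · simp
  have hx' : (‖x‖ : 𝕜) ≠ 0 := by
    rw [Ne, RCLike.ofReal_eq_zero]
    exact norm_ne_zero_iff.2 hx
  set s : Sph V := ⟨((‖x‖ : 𝕜)⁻¹) • x, by
    rw [norm_smul, norm_inv, RCLike.norm_ofReal, abs_norm]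
    exact inv_mul_cancel₀ (norm_ne_zero_iff.2 hx)⟩ with hs
  refine ⟨((‖x‖ : 𝕜) * (1 / 2)) • (e 𝕜 (s, true) + e 𝕜 (s, false)), ?_, ?_, ?_⟩
  · intro t
    rw [map_smul, map_add]
    by_cases h : t = s
    · rw [h, d_e_same, d_e_same]; simp
    · rw [d_e_ne 𝕜 V t s true h, d_e_ne 𝕜 V t s false h]; simp
  · rw [map_smul, map_add, q_e, q_e]
    change ((‖x‖ : 𝕜) * (1 / 2)) • ((s : V) + (s : V)) = x
    rw [← two_smul 𝕜 (s : V), smul_smul]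
    have : (‖x‖ : 𝕜) * (1 / 2) * 2 = (‖x‖ : 𝕜) := by ring
    rw [this]
    change (‖x‖ : 𝕜) • ((‖x‖ : 𝕜)⁻¹ • x) = x
    rw [smul_smul, mul_inv_cancel₀ hx', one_smul]
  · rw [norm_smul, norm_mul, RCLike.norm_ofReal, abs_norm, norm_half]
    have := norm_add_le (e 𝕜 (s, true)) (e 𝕜 (s, false))
    rw [norm_e, norm_e] at this
    nlinarith [norm_nonneg x]

/-- A chosen representative. -/
noncomputable def rep (x : V) : L1 𝕜 (Ind V) := (exists_rep 𝕜 V x).choose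

theorem d_rep (x : V) (s : Sph V) : d 𝕜 V s (rep 𝕜 V x) = 0 := (exists_rep 𝕜 V x).choose_spec.1 s

theorem q_rep (x : V) : q 𝕜 V (rep 𝕜 V x) = x := (exists_rep 𝕜 V x).choose_spec.2.1

theorem norm_rep (x : V) : ‖rep 𝕜 V x‖ ≤ ‖x‖ := (exists_rep 𝕜 V x).choose_spec.2.2

/-- The isometric embedding of `V`. -/
noncomputable def J : V →ₗᵢ[𝕜] X 𝕜 V where
  toFun := fun x => mk 𝕜 V (rep 𝕜 V x)
  map_add' := by
    intro x y
    change (Submodule.Quotient.mk _ : L1 𝕜 (Ind V) ⧸ K 𝕜 V)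
      = Submodule.Quotient.mk _ + Submodule.Quotient.mk _
    rw [← Submodule.Quotient.mk_add, Submodule.Quotient.eq, mem_K]
    constructor
    · rw [map_sub, map_add, q_rep, q_rep, q_rep, sub_self]
    · intro s
      rw [map_sub, map_add, d_rep, d_rep, d_rep]; simp
  map_smul' := by
    intro c x
    change (Submodule.Quotient.mk _ : L1 𝕜 (Ind V) ⧸ K 𝕜 V)
      = c • Submodule.Quotient.mk _
    rw [← Submodule.Quotient.mk_smul, Submodule.Quotient.eq, mem_K]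
    constructor
    · rw [map_sub, map_smul, q_rep, q_rep, sub_self]
    · intro s
      rw [map_sub, map_smul, d_rep, d_rep]; simp
  norm_map' := by
    intro x
    change ‖mk 𝕜 V (rep 𝕜 V x)‖ = ‖x‖
    apply le_antisymm
    · exact (norm_mk_le 𝕜 V _).trans (norm_rep 𝕜 V x)
    · have h1 := (P1 𝕜 V).le_opNorm (mk 𝕜 V (rep 𝕜 V x))
      rw [P1_mk, q_rep] at h1
      have h2 := norm_P1_le 𝕜 V
      have h3 := mul_le_mul_of_nonneg_right h2 (norm_nonneg (mk 𝕜 V (rep 𝕜 V x)))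
      linarith

theorem P1_J (x : V) : P1 𝕜 V (J 𝕜 V x) = x := q_rep 𝕜 V x

/-- The norm-one projection. -/
noncomputable def P : X 𝕜 V →L[𝕜] X 𝕜 V := (J 𝕜 V).toContinuousLinearMap.comp (P1 𝕜 V)

theorem P_apply (x : X 𝕜 V) : P 𝕜 V x = J 𝕜 V (P1 𝕜 V x) := rfl

theorem norm_P_le : ‖P 𝕜 V‖ ≤ 1 := by
  apply ContinuousLinearMap.opNorm_le_bound _ zero_le_one
  intro x
  rw [P_apply, LinearIsometry.norm_map]
  have h1 := (P1 𝕜 V).le_opNorm x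
  have h2 := mul_le_mul_of_nonneg_right (norm_P1_le 𝕜 V) (norm_nonneg x)
  linarith

end Quot

end Pool.Agent.Y282.PA
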