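import Mathlib
import Pool.Agent.W703.OCDefs

set_option autoImplicit false

open Topology Filter

/-!
A strictly convex renorming `Y` of `c₀` (Lindenstrauss): the norm-attaining operators from `c₀`
to `Y` are not dense.
-/

namespace Pool.Agent.Y282.PA

section CZero

variable (𝕜 : Type*) [RCLike 𝕜]

/-- The space `c₀`. -/
abbrev C0 : Type _ := ZeroAtInftyContinuousMap ℕ 𝕜

/-- The element of `c₀` given by a null sequence. -/
noncomputable def ofSeq (a : ℕ → 𝕜) (h : Tendsto a atTop (𝓝 0)) : C0 𝕜 where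
  toFun := a
  continuous_toFun := continuous_of_discreteTopology
  zero_at_infty' := by
    rw [cocompact_eq_cofinite, Nat.cofinite_eq_atTop]; exact h

theorem tendsto_c0 (f : C0 𝕜) : Tendsto f atTop (𝓝 0) := by
  have := f.zero_at_infty'
  rw [cocompact_eq_cofinite, Nat.cofinite_eq_atTop] at this
  exact this

theorem norm_apply_le_c0 (f : C0 𝕜) (n : ℕ) : ‖f n‖ ≤ ‖f‖ := by
  have := f.toBCF.norm_coe_le_norm n
  rw [ZeroAtInftyContinuousMap.norm_toBCF_eq_norm] at this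
  exact this

theorem norm_le_iff_c0 (f : C0 𝕜) {C : ℝ} (hC : 0 ≤ C) : ‖f‖ ≤ C ↔ ∀ n, ‖f n‖ ≤ C := by
  rw [← ZeroAtInftyContinuousMap.norm_toBCF_eq_norm, BoundedContinuousFunction.norm_le hC]
  rfl

/-- Unit vectors of `c₀`. -/
noncomputable def u (k : ℕ) : C0 𝕜 :=
  ofSeq 𝕜 (fun n => if n = k then 1 else 0) (by
    refine tendsto_const_nhds.congr' ?_
    filter_upwards [eventually_gt_atTop k] with n hn
    simp [hn.ne'])

theorem u_apply (k n : ℕ) : u 𝕜 k n = if n = k then 1 else 0 := rfl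

theorem norm_u (k : ℕ) : ‖u 𝕜 k‖ = 1 := by
  apply le_antisymm
  · rw [norm_le_iff_c0 𝕜 _ zero_le_one]
    intro n
    rw [u_apply]
    split_ifs <;> simp
  · have := norm_apply_le_c0 𝕜 (u 𝕜 k) k
    rw [u_apply] at this
    simpa using this

instance : Nontrivial (C0 𝕜) := by
  refine ⟨u 𝕜 0, 0, ?_⟩
  intro h
  have := norm_u 𝕜 0
  rw [h, norm_zero] at this
  exact zero_ne_one this

/-- `ℓ²`. -/
abbrev H : Type _ := lp (fun _ : ℕ => 𝕜) 2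

theorem memlp_D (x : C0 𝕜) : Memℓp (fun n : ℕ => ((1 / 2 : ℝ) ^ n : 𝕜) * x n) 2 := by
  apply memℓp_gen
  have h1 : Summable fun n : ℕ => ((1 / 4 : ℝ) ^ n) * ‖x‖ ^ 2 :=
    (summable_geometric_of_lt_one (by norm_num) (by norm_num)).mul_right _
  refine Summable.of_nonneg_of_le (fun n => by positivity) (fun n => ?_) h1
  have h2 : ‖((1 / 2 : ℝ) ^ n : 𝕜) * x n‖ ≤ (1 / 2 : ℝ) ^ n * ‖x‖ := by
    rw [norm_mul, norm_pow, RCLike.norm_ofReal, abs_of_pos (by norm_num)]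
    exact mul_le_mul_of_nonneg_left (norm_apply_le_c0 𝕜 x n) (by positivity)
  have h3 : ‖((1 / 2 : ℝ) ^ n : 𝕜) * x n‖ ^ (ENNReal.toReal 2)
      = ‖((1 / 2 : ℝ) ^ n : 𝕜) * x n‖ ^ 2 := by
    norm_num
  rw [h3]
  calc ‖((1 / 2 : ℝ) ^ n : 𝕜) * x n‖ ^ 2 ≤ ((1 / 2 : ℝ) ^ n * ‖x‖) ^ 2 :=
        pow_le_pow_left₀ (norm_nonneg _) h2 2
    _ = ((1 / 4 : ℝ) ^ n) * ‖x‖ ^ 2 := by
      rw [mul_pow, ← pow_mul, mul_comm n 2, pow_mul]; norm_num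

/-- The strictly convex space `Y`, isomorphic to `c₀`: the graph of the diagonal operator
`x ↦ (2⁻ⁿ xₙ)` from `c₀` to `ℓ²`, in the `ℓ²`-sum of `c₀` and `ℓ²`. -/
def YS : Submodule 𝕜 (WithLp 2 (C0 𝕜 × H 𝕜)) where
  carrier := {p | ∀ n : ℕ, p.snd n = ((1 / 2 : ℝ) ^ n : 𝕜) * p.fst n}
  add_mem' := by
    intro p p' hp hp' n
    have h1 := hp n
    have h2 := hp' n
    change (p.snd + p'.snd : H 𝕜) n = ((1 / 2 : ℝ) ^ n : 𝕜) * (p.fst n + p'.fst n)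
    rw [lp.coeFn_add, Pi.add_apply, h1, h2]; ring
  zero_mem' := by
    intro n
    change (0 : H 𝕜) n = ((1 / 2 : ℝ) ^ n : 𝕜) * (0 : 𝕜)
    simp
  smul_mem' := by
    intro c p hp n
    have h1 := hp n
    change (c • p.snd : H 𝕜) n = ((1 / 2 : ℝ) ^ n : 𝕜) * (c * p.fst n)
    rw [lp.coeFn_smul, Pi.smul_apply, h1, smul_eq_mul]; ring

theorem mem_Y (p : WithLp 2 (C0 𝕜 × H 𝕜)) :
    p ∈ YS 𝕜 ↔ ∀ n : ℕ, p.snd n = ((1 / 2 : ℝ) ^ n : 𝕜) * p.fst n := Iff.rfl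

theorem isClosed_Y : IsClosed (YS 𝕜 : Set (WithLp 2 (C0 𝕜 × H 𝕜))) := by
  have : (YS 𝕜 : Set (WithLp 2 (C0 𝕜 × H 𝕜)))
      = ⋂ n : ℕ, {p | p.snd n = ((1 / 2 : ℝ) ^ n : 𝕜) * p.fst n} := by
    ext p
    simp only [SetLike.mem_coe, mem_Y, Set.mem_iInter, Set.mem_ofPred_eq]
  rw [this]
  refine isClosed_iInter fun n => isClosed_eq ?_ ?_
  · have h1 : Continuous fun y : H 𝕜 => y n := (lp.lipschitzWith_one_eval 2 n).continuous
    exact h1.comp (WithLp.sndL 2 𝕜 (C0 𝕜) (H 𝕜)).continuous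
  · have h1 : Continuous fun x : C0 𝕜 => x n := by
      have : LipschitzWith 1 fun x : C0 𝕜 => x n := by
        apply LipschitzWith.of_dist_le_mul
        intro x y
        rw [dist_eq_norm, dist_eq_norm, NNReal.coe_one, one_mul]
        exact norm_apply_le_c0 𝕜 (x - y) n
      exact this.continuous
    exact continuous_const.mul (h1.comp (WithLp.fstL 2 𝕜 (C0 𝕜) (H 𝕜)).continuous)

/-- The Banach space `Y`. -/
def Y : Type _ := YS 𝕜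

noncomputable instance : NormedAddCommGroup (Y 𝕜) := Submodule.normedAddCommGroup (YS 𝕜)

noncomputable instance : NormedSpace 𝕜 (Y 𝕜) := Submodule.normedSpace (YS 𝕜)

instance : CompleteSpace (Y 𝕜) := (isClosed_Y 𝕜).completeSpace_coe

/-- First component. -/
def fs (p : Y 𝕜) : C0 𝕜 := (Subtype.val p : WithLp 2 (C0 𝕜 × H 𝕜)).fst

/-- Second component. -/
def sn (p : Y 𝕜) : H 𝕜 := (Subtype.val p : WithLp 2 (C0 𝕜 × H 𝕜)).snd

theorem norm_sq_Y (p : Y 𝕜) :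
    ‖p‖ ^ 2 = ‖fs 𝕜 p‖ ^ 2 + ‖sn 𝕜 p‖ ^ 2 :=
  WithLp.prod_norm_sq_eq_of_L2 (Subtype.val p : WithLp 2 (C0 𝕜 × H 𝕜))

theorem sn_apply (p : Y 𝕜) (n : ℕ) : sn 𝕜 p n = ((1 / 2 : ℝ) ^ n : 𝕜) * fs 𝕜 p n := p.2 n

theorem fs_add (v w : Y 𝕜) : fs 𝕜 (v + w) = fs 𝕜 v + fs 𝕜 w := rfl

theorem sn_add (v w : Y 𝕜) : sn 𝕜 (v + w) = sn 𝕜 v + sn 𝕜 w := rfl

theorem fs_sub (v w : Y 𝕜) : fs 𝕜 (v - w) = fs 𝕜 v - fs 𝕜 w := rfl

theorem sn_sub (v w : Y 𝕜) : sn 𝕜 (v - w) = sn 𝕜 v - sn 𝕜 w := rfl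

theorem ext_fs (v w : Y 𝕜) (h : fs 𝕜 v = fs 𝕜 w) : v = w := by
  have h1 : sn 𝕜 v = sn 𝕜 w := by
    apply lp.ext
    funext n
    rw [sn_apply, sn_apply, h]
  have h2 : fs 𝕜 (v - w) = 0 := by rw [fs_sub, h, sub_self]
  have h3 : sn 𝕜 (v - w) = 0 := by rw [sn_sub, h1, sub_self]
  have h4 := norm_sq_Y 𝕜 (v - w)
  rw [h2, h3] at h4
  have h5 : ‖v - w‖ = 0 := by
    have : ‖v - w‖ ^ 2 = 0 := by rw [h4]; simp
    exact pow_eq_zero_iff (two_ne_zero) |>.1 this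
  exact sub_eq_zero.1 (norm_eq_zero.1 h5)

/-- The strict convexity property of `Y` that is used. -/
theorem Y_strict (v w : Y 𝕜) (h1 : ‖v + w‖ ≤ ‖v‖) (h2 : ‖v - w‖ ≤ ‖v‖) : w = 0 := by
  have a1 : ‖v + w‖ ^ 2 ≤ ‖v‖ ^ 2 := pow_le_pow_left₀ (norm_nonneg _) h1 2
  have a2 : ‖v - w‖ ^ 2 ≤ ‖v‖ ^ 2 := pow_le_pow_left₀ (norm_nonneg _) h2 2
  rw [norm_sq_Y, norm_sq_Y, fs_add, sn_add] at a1
  rw [norm_sq_Y, norm_sq_Y, fs_sub, sn_sub] at a2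
  have hw := sn_apply 𝕜 w
  generalize fs 𝕜 v = x at a1 a2
  generalize sn 𝕜 v = y at a1 a2
  have c0 : fs 𝕜 w = 0 := by
    generalize fs 𝕜 w = x' at a1 a2 hw
    generalize sn 𝕜 w = y' at a1 a2 hw
    have c1 : ‖y + y'‖ ^ 2 + ‖y - y'‖ ^ 2 = 2 * (‖y‖ ^ 2 + ‖y'‖ ^ 2) := by
      have := parallelogram_law_with_norm 𝕜 y y'
      nlinarith
    have c2 : 2 * ‖x‖ ≤ ‖x + x'‖ + ‖x - x'‖ := by
      have e1 : (x + x') + (x - x') = (2 : ℕ) • x := by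
        rw [two_nsmul]; abel
      have e2 : ‖(2 : ℕ) • x‖ = 2 * ‖x‖ := by
        rw [← Nat.cast_smul_eq_nsmul 𝕜, norm_smul]; simp
      have h3 := norm_add_le (x + x') (x - x')
      rw [e1, e2] at h3
      exact h3
    have c3 : 2 * ‖x‖ ^ 2 ≤ ‖x + x'‖ ^ 2 + ‖x - x'‖ ^ 2 := by
      nlinarith [sq_nonneg (‖x + x'‖ - ‖x - x'‖), norm_nonneg x, norm_nonneg (x + x'),
        norm_nonneg (x - x')]
    have c4 : ‖y'‖ ^ 2 ≤ 0 := by linarith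
    have c5 : y' = 0 := by
      have : ‖y'‖ = 0 := by nlinarith [norm_nonneg y']
      exact norm_eq_zero.1 this
    ext n
    have h4 := hw n
    rw [c5] at h4
    have h5 : ((1 / 2 : ℝ) ^ n : 𝕜) ≠ 0 := by
      apply pow_ne_zero
      rw [Ne, RCLike.ofReal_eq_zero]
      norm_num
    have h6 : (0 : 𝕜) = ((1 / 2 : ℝ) ^ n : 𝕜) * x' n := h4
    rcases mul_eq_zero.1 h6.symm with h | h
    · exact absurd h h5
    · exact h
  exact ext_fs 𝕜 w 0 (by rw [c0]; rfl)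

/-- The diagonal operator. -/
noncomputable def D (x : C0 𝕜) : H 𝕜 := ⟨fun n : ℕ => ((1 / 2 : ℝ) ^ n : 𝕜) * x n, memlp_D 𝕜 x⟩

theorem D_apply (x : C0 𝕜) (n : ℕ) : D 𝕜 x n = ((1 / 2 : ℝ) ^ n : 𝕜) * x n := rfl

theorem norm_D_le (x : C0 𝕜) : ‖D 𝕜 x‖ ≤ 2 * ‖x‖ := by
  apply lp.norm_le_of_tsum_le (by norm_num) (by positivity)
  have h1 : HasSum (fun n : ℕ => ((1 / 4 : ℝ) ^ n) * ‖x‖ ^ 2) ((1 - 1 / 4)⁻¹ * ‖x‖ ^ 2) :=
    (hasSum_geometric_of_lt_one (by norm_num) (by norm_num)).mul_right _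
  have h5 : ∀ n : ℕ, ‖D 𝕜 x n‖ ^ (ENNReal.toReal 2) ≤ ((1 / 4 : ℝ) ^ n) * ‖x‖ ^ 2 := by
    intro n
    have h2 : ‖((1 / 2 : ℝ) ^ n : 𝕜) * x n‖ ≤ (1 / 2 : ℝ) ^ n * ‖x‖ := by
      rw [norm_mul, norm_pow, RCLike.norm_ofReal, abs_of_pos (by norm_num)]
      exact mul_le_mul_of_nonneg_left (norm_apply_le_c0 𝕜 x n) (by positivity)
    have h3 : ‖D 𝕜 x n‖ ^ (ENNReal.toReal 2) = ‖D 𝕜 x n‖ ^ 2 := by norm_num
    rw [h3, D_apply]
    calc ‖((1 / 2 : ℝ) ^ n : 𝕜) * x n‖ ^ 2 ≤ ((1 / 2 : ℝ) ^ n * ‖x‖) ^ 2 :=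
          pow_le_pow_left₀ (norm_nonneg _) h2 2
      _ = ((1 / 4 : ℝ) ^ n) * ‖x‖ ^ 2 := by
        rw [mul_pow, ← pow_mul, mul_comm n 2, pow_mul]; norm_num
  have h6 : ∑' n, ‖D 𝕜 x n‖ ^ (ENNReal.toReal 2) ≤ (1 - 1 / 4)⁻¹ * ‖x‖ ^ 2 := by
    rw [← h1.tsum_eq]
    exact Summable.tsum_le_tsum h5 ((lp.memℓp (D 𝕜 x)).summable (by norm_num)) h1.summable
  refine h6.trans ?_
  have h7 : (2 * ‖x‖) ^ (ENNReal.toReal 2) = (2 * ‖x‖) ^ 2 := by norm_num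
  rw [h7]
  nlinarith [sq_nonneg ‖x‖]

theorem le_of_sq_le_sq' {a b : ℝ} (h : a ^ 2 ≤ b ^ 2) (hb : 0 ≤ b) : a ≤ b :=
  le_of_abs_le (by rw [← abs_of_nonneg hb]; exact sq_le_sq.1 h)

/-- The isomorphism from `c₀` onto `Y`. -/
noncomputable def T0 : C0 𝕜 →L[𝕜] Y 𝕜 :=
  LinearMap.mkContinuous
    { toFun := fun x => ⟨WithLp.toLp 2 (x, D 𝕜 x), fun n => rfl⟩
      map_add' := by
        intro x y
        apply Subtype.ext
        change WithLp.toLp 2 (x + y, D 𝕜 (x + y)) = WithLp.toLp 2 (x + y, D 𝕜 x + D 𝕜 y)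
        congr 2
        apply lp.ext
        funext n
        rw [lp.coeFn_add, Pi.add_apply, D_apply, D_apply, D_apply]
        change ((1 / 2 : ℝ) ^ n : 𝕜) * (x n + y n) = _
        ring
      map_smul' := by
        intro c x
        apply Subtype.ext
        change WithLp.toLp 2 (c • x, D 𝕜 (c • x)) = WithLp.toLp 2 (c • x, c • D 𝕜 x)
        congr 2
        apply lp.ext
        funext n
        rw [lp.coeFn_smul, Pi.smul_apply, D_apply, D_apply, smul_eq_mul]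
        change ((1 / 2 : ℝ) ^ n : 𝕜) * (c * x n) = _
        ring } 3 (by
    intro x
    have h1 := norm_sq_Y 𝕜 ⟨WithLp.toLp 2 (x, D 𝕜 x), fun n => rfl⟩
    have h2 := norm_D_le 𝕜 x
    change ‖(⟨WithLp.toLp 2 (x, D 𝕜 x), fun n => rfl⟩ : Y 𝕜)‖ ≤ 3 * ‖x‖
    change ‖(⟨WithLp.toLp 2 (x, D 𝕜 x), fun n => rfl⟩ : Y 𝕜)‖ ^ 2 = ‖x‖ ^ 2 + ‖D 𝕜 x‖ ^ 2 at h1
    generalize ‖(⟨WithLp.toLp 2 (x, D 𝕜 x), fun n => rfl⟩ : Y 𝕜)‖ = z at h1 ⊢
    have h3 := norm_nonneg x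
    have h4 := norm_nonneg (D 𝕜 x)
    have h5 : z ^ 2 ≤ (3 * ‖x‖) ^ 2 := by nlinarith
    exact le_of_sq_le_sq' h5 (by positivity))

theorem norm_T0_ge (x : C0 𝕜) : ‖x‖ ≤ ‖T0 𝕜 x‖ := by
  have h1 := norm_sq_Y 𝕜 (T0 𝕜 x)
  change _ = ‖x‖ ^ 2 + ‖D 𝕜 x‖ ^ 2 at h1
  apply le_of_sq_le_sq' _ (norm_nonneg _)
  rw [h1]
  nlinarith [norm_nonneg (D 𝕜 x)]

/-- A norm-attaining operator from `c₀` into `Y` vanishes at some unit vector. -/
theorem NA_c0 (T : C0 𝕜 →L[𝕜] Y 𝕜) (x : C0 𝕜) (hx : ‖x‖ = 1) (hT : ‖T x‖ = ‖T‖) :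
    ∃ n, T (u 𝕜 n) = 0 := by
  have h1 := tendsto_c0 𝕜 x
  rw [Metric.tendsto_atTop] at h1
  obtain ⟨N, hN⟩ := h1 (1 / 2) (by norm_num)
  have h2 := hN N le_rfl
  rw [dist_zero_right] at h2
  refine ⟨N, ?_⟩
  have key : ∀ σ : 𝕜, ‖σ‖ = 1 → ‖x + (σ / 2) • u 𝕜 N‖ ≤ 1 := by
    intro σ hσ
    rw [norm_le_iff_c0 𝕜 _ zero_le_one]
    intro n
    change ‖x n + (σ / 2) * u 𝕜 N n‖ ≤ 1
    rw [u_apply]
    split_ifs with hn
    · rw [hn, mul_one]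
      refine (norm_add_le _ _).trans ?_
      rw [norm_div, hσ, RCLike.norm_ofNat]
      linarith
    · rw [mul_zero, add_zero, ← hx]
      exact norm_apply_le_c0 𝕜 x n
  have h3 := key 1 (by simp)
  have h4 := key (-1) (by simp)
  have h5 := T.le_opNorm (x + ((1 : 𝕜) / 2) • u 𝕜 N)
  have h6 := T.le_opNorm (x + ((-1 : 𝕜) / 2) • u 𝕜 N)
  have h7 := mul_le_mul_of_nonneg_left h3 (norm_nonneg T)
  have h8 := mul_le_mul_of_nonneg_left h4 (norm_nonneg T)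
  rw [map_add] at h5 h6
  have h9 : T x + T (((-1 : 𝕜) / 2) • u 𝕜 N) = T x - T (((1 : 𝕜) / 2) • u 𝕜 N) := by
    rw [map_smul, map_smul, sub_eq_add_neg, ← neg_smul]
    congr 2
    ring
  rw [h9] at h6
  have h10 := Y_strict 𝕜 (T x) (T (((1 : 𝕜) / 2) • u 𝕜 N)) (by rw [hT]; linarith)
    (by rw [hT]; linarith)
  rw [map_smul] at h10
  rcases smul_eq_zero.1 h10 with h | h
  · exfalso
    have : ((1 : 𝕜) / 2) ≠ 0 := by
      have h2 : (2 : 𝕜) ≠ 0 := two_ne_zero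
      exact div_ne_zero one_ne_zero h2
    exact this h
  · exact h

/-- The norm-attaining operators from `c₀` to `Y` are not dense. -/
theorem not_dense_c0 : ¬ Dense (Pool.Agent.W703.OC.NA 𝕜 (C0 𝕜) (Y 𝕜)) := by
  intro h
  rw [Metric.dense_iff] at h
  obtain ⟨T, hT1, x, hx, hT2⟩ := h (T0 𝕜) 1 one_pos
  obtain ⟨n, hn⟩ := NA_c0 𝕜 T x hx hT2
  rw [Metric.mem_ball, dist_eq_norm] at hT1
  have h1 := (T - T0 𝕜).le_opNorm (u 𝕜 n)
  rw [norm_u, mul_one, ContinuousLinearMap.sub_apply, hn, zero_sub, norm_neg] at h1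
  have h2 := norm_T0_ge 𝕜 (u 𝕜 n)
  rw [norm_u] at h2
  linarith

end CZero

/-- Density of the norm-attaining operators is invariant under isometric isomorphism of the
domain. -/
theorem dense_NA_of_equiv {𝕜 : Type*} [RCLike 𝕜] {V W Z : Type*} [NormedAddCommGroup V]
    [NormedSpace 𝕜 V] [NormedAddCommGroup W] [NormedSpace 𝕜 W] [NormedAddCommGroup Z]
    [NormedSpace 𝕜 Z] (i : V ≃ₗᵢ[𝕜] W) (h : Dense (Pool.Agent.W703.OC.NA 𝕜 W Z)) :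
    Dense (Pool.Agent.W703.OC.NA 𝕜 V Z) := by
  rw [Metric.dense_iff] at h ⊢
  intro T r hr
  set i1 : V →L[𝕜] W := (i.toContinuousLinearEquiv : V →L[𝕜] W) with hi1
  set i2 : W →L[𝕜] V := (i.symm.toContinuousLinearEquiv : W →L[𝕜] V) with hi2
  have e1 : ∀ v, i1 v = i v := fun v => rfl
  have e2 : ∀ w, i2 w = i.symm w := fun v => rfl
  have n1 : ‖i1‖ ≤ 1 := by
    apply ContinuousLinearMap.opNorm_le_bound _ zero_le_one
    intro v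
    rw [e1, i.norm_map, one_mul]
  have n2 : ‖i2‖ ≤ 1 := by
    apply ContinuousLinearMap.opNorm_le_bound _ zero_le_one
    intro v
    rw [e2, i.symm.norm_map, one_mul]
  obtain ⟨S, hS1, w, hw, hS2⟩ := h (T.comp i2) r hr
  refine ⟨S.comp i1, ?_, i.symm w, ?_, ?_⟩
  · rw [Metric.mem_ball, dist_eq_norm] at hS1 ⊢
    have h3 : S.comp i1 - T = (S - T.comp i2).comp i1 := by
      ext v
      simp [e1, e2]
    rw [h3]
    have h4 := ContinuousLinearMap.opNorm_comp_le (S - T.comp i2) i1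
    nlinarith [norm_nonneg (S - T.comp i2), norm_nonneg i1]
  · rw [i.symm.norm_map]; exact hw
  · have h5 : (S.comp i1) (i.symm w) = S w := by
      simp [e1]
    rw [h5, hS2]
    apply le_antisymm
    · have h6 : S = (S.comp i1).comp i2 := by
        ext v
        simp [e1, e2]
      have h7 := ContinuousLinearMap.opNorm_comp_le (S.comp i1) i2
      rw [← h6] at h7
      nlinarith [norm_nonneg (S.comp i1), norm_nonneg i2]
    · have h4 := ContinuousLinearMap.opNorm_comp_le S i1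
      nlinarith [norm_nonneg S, norm_nonneg i1]

end Pool.Agent.Y282.PA
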