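import Mathlib

set_option autoImplicit false

namespace Pool.Agent.Y282.QP

/-- the 2-adic level -/
def lev (x : ℚ) : ℕ := padicValNat 2 x.den

lemma le_lev_iff (k : ℕ) (x : ℚ) : k ≤ lev x ↔ 2 ^ k ∣ x.den :=
  (padicValNat_dvd_iff_le (p := 2) x.den_ne_zero).symm

lemma lev_add_le (x y : ℚ) : lev (x + y) ≤ max (lev x) (lev y) := by
  by_contra h
  push Not at h
  have h1 : 2 ^ (max (lev x) (lev y) + 1) ∣ (x + y).den := (le_lev_iff _ _).1 h
  have h2 := h1.trans (Rat.add_den_dvd_lcm x y)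
  have h3 : Nat.lcm x.den y.den ∣ 2 ^ (max (lev x) (lev y)) *
      (Nat.lcm (x.den / 2 ^ lev x) (y.den / 2 ^ lev y)) := by
    have key : ∀ z : ℚ, lev z ≤ max (lev x) (lev y) → ∀ L : ℕ, z.den / 2 ^ lev z ∣ L →
        z.den ∣ 2 ^ (max (lev x) (lev y)) * L := by
      intro z hz L hL
      have e : z.den = 2 ^ lev z * (z.den / 2 ^ lev z) :=
        (Nat.mul_div_cancel' ((le_lev_iff _ _).1 le_rfl)).symm
      calc z.den = 2 ^ lev z * (z.den / 2 ^ lev z) := e
        _ ∣ _ := mul_dvd_mul (pow_dvd_pow 2 hz) hL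
    exact Nat.lcm_dvd (key x (le_max_left _ _) _ (Nat.dvd_lcm_left _ _))
      (key y (le_max_right _ _) _ (Nat.dvd_lcm_right _ _))
  have h4 := h2.trans h3
  rw [pow_succ, mul_dvd_mul_iff_left (by positivity)] at h4
  have h5 : ¬ 2 ∣ x.den / 2 ^ lev x := by
    intro h
    have : 2 ^ (lev x + 1) ∣ x.den := by
      rw [pow_succ]
      exact Nat.mul_dvd_of_dvd_div ((le_lev_iff _ _).1 le_rfl) h
    have := (le_lev_iff _ _).2 this
    omega
  have h6 : ¬ 2 ∣ y.den / 2 ^ lev y := by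
    intro h
    have : 2 ^ (lev y + 1) ∣ y.den := by
      rw [pow_succ]
      exact Nat.mul_dvd_of_dvd_div ((le_lev_iff _ _).1 le_rfl) h
    have := (le_lev_iff _ _).2 this
    omega
  have h7 : 2 ∣ (x.den / 2 ^ lev x) * (y.den / 2 ^ lev y) := h4.trans (Nat.lcm_dvd_mul _ _)
  rcases (Nat.prime_two.dvd_mul).1 h7 with h | h
  · exact h5 h
  · exact h6 h

lemma lev_neg (x : ℚ) : lev (-x) = lev x := by
  unfold lev
  rw [Rat.neg_den]

lemma lev_sub_le (x y : ℚ) : lev (x - y) ≤ max (lev x) (lev y) := by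
  rw [sub_eq_add_neg, ← lev_neg y]
  exact lev_add_le x (-y)

lemma lev_add_of_lt {x y : ℚ} (h : lev x < lev y) : lev (x + y) = lev y := by
  apply le_antisymm
  · exact (lev_add_le x y).trans (max_le h.le le_rfl)
  · have h1 := lev_sub_le (x + y) x
    have e : x + y - x = y := by ring
    rw [e] at h1
    rcases le_max_iff.1 h1 with h2 | h2
    · exact h2
    · omega

lemma lev_sub_of_lt {x y : ℚ} (h : lev x < lev y) : lev (y - x) = lev y := by
  rw [sub_eq_add_neg, add_comm]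
  exact lev_add_of_lt (by rwa [lev_neg])

lemma lev_sub_of_gt {x y : ℚ} (h : lev x < lev y) : lev (x - y) = lev y := by
  rw [sub_eq_add_neg, ← lev_neg y]
  exact lev_add_of_lt (by rwa [lev_neg])

lemma lev_add_int (x : ℚ) (n : ℤ) : lev (x + n) = lev x := by
  unfold lev
  rw [Rat.add_intCast_den]

lemma lev_sub_one (x : ℚ) : lev (x - 1) = lev x := by
  have := lev_add_int x (-1)
  push_cast at this
  rw [← sub_eq_add_neg] at this
  exact this

lemma lev_zero : lev 0 = 0 := by simp [lev]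

lemma lev_one : lev 1 = 0 := by simp [lev]

lemma lev_odd_div (a : ℕ) (ha : Odd a) (k : ℕ) : lev ((a : ℚ) / 2 ^ k) = k := by
  have h : ((a : ℚ) / 2 ^ k).den = 2 ^ k := by
    have hc : Nat.Coprime (a : ℤ).natAbs (2 ^ k) := by
      rw [Int.natAbs_natCast]
      exact Nat.Coprime.pow_right k (Nat.coprime_two_right.2 ha)
    have := Rat.den_div_eq_of_coprime (a := (a : ℤ)) (b := ((2 ^ k : ℕ) : ℤ)) (by positivity) (by
      rwa [Int.natAbs_natCast])
    push_cast at this
    exact_mod_cast this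
  unfold lev
  rw [h]
  exact padicValNat.prime_pow k

lemma lev_half_pow (k : ℕ) : lev ((1 : ℚ) / 2 ^ k) = k := by
  have := lev_odd_div 1 odd_one k
  simpa using this

end Pool.Agent.Y282.QP
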