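import Mathlib
import Pool.Agent.Y282.QPlev

set_option autoImplicit false

namespace Pool.Agent.Y282.QP

open Finset

/-- enumeration of the dyadic rationals of `[0,1)` -/
def qq (m : ℕ) : ℚ := (2 * m + 1 : ℕ) / 2 ^ (Nat.log 2 (2 * m + 1)) - 1

/-- the points of the support -/
def pp (m : ℕ) : ℚ := qq m + 1 / 2 ^ (m + 1)

lemma log_le (m : ℕ) : Nat.log 2 (2 * m + 1) ≤ m := by
  have h : 2 * m + 1 < 2 ^ (m + 1) := by
    induction m with
    | zero => norm_num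
    | succ n ih => rw [pow_succ]; omega
  have := Nat.log_lt_of_lt_pow (by omega) h
  omega

lemma lev_qq (m : ℕ) : lev (qq m) = Nat.log 2 (2 * m + 1) := by
  unfold qq
  rw [lev_sub_one]
  exact lev_odd_div (2 * m + 1) ⟨m, rfl⟩ _

lemma lev_qq_le (m : ℕ) : lev (qq m) ≤ m := by
  rw [lev_qq]; exact log_le m

lemma qq_nonneg (m : ℕ) : 0 ≤ qq m := by
  unfold qq
  rw [sub_nonneg, le_div_iff₀ (by positivity), one_mul]
  exact_mod_cast Nat.pow_log_le_self 2 (by omega)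

lemma qq_eq (m : ℕ) : 2 ^ (lev (qq m)) * (qq m + 1) = (2 * m + 1 : ℕ) := by
  rw [lev_qq]
  unfold qq
  field_simp
  ring

lemma qq_le (m : ℕ) : qq m + 1 / 2 ^ (lev (qq m)) ≤ 1 := by
  have h := qq_eq m
  have h1 : 2 * m + 1 < 2 ^ (Nat.log 2 (2 * m + 1) + 1) := Nat.lt_pow_succ_log_self (by norm_num) _
  rw [← lev_qq m] at h1
  have h2 : ((2 * m + 1 : ℕ) : ℚ) + 1 ≤ 2 ^ (lev (qq m) + 1) := by exact_mod_cast h1
  rw [← h, pow_succ] at h2
  have h3 : (0 : ℚ) < 2 ^ (lev (qq m)) := by positivity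
  have h4 : (2 : ℚ) ^ (lev (qq m)) * (qq m + 1 / 2 ^ (lev (qq m))) ≤ 2 ^ (lev (qq m)) * 1 := by
    have : (2 : ℚ) ^ (lev (qq m)) * (1 / 2 ^ (lev (qq m))) = 1 := by field_simp
    nlinarith
  exact le_of_mul_le_mul_left h4 h3

lemma qq_inj {m n : ℕ} (h : qq m = qq n) : m = n := by
  have h1 := qq_eq m
  have h2 := qq_eq n
  rw [h, h2] at h1
  have : 2 * n + 1 = 2 * m + 1 := by exact_mod_cast h1
  omega

lemma qq_zero : qq 0 = 0 := by
  unfold qq; norm_num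

lemma lev_pp (m : ℕ) : lev (pp m) = m + 1 := by
  unfold pp
  rw [lev_add_of_lt, lev_half_pow]
  rw [lev_half_pow]
  have := lev_qq_le m
  omega

lemma pp_pos (m : ℕ) : 0 < pp m := by
  unfold pp
  have := qq_nonneg m
  positivity

lemma pp_lt_one (m : ℕ) : pp m < 1 := by
  unfold pp
  have h1 := qq_le m
  have h2 : (1 : ℚ) / 2 ^ (m + 1) < 1 / 2 ^ (lev (qq m)) := by
    apply one_div_lt_one_div_of_lt (by positivity)
    apply pow_lt_pow_right₀ (by norm_num)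
    have := lev_qq_le m
    omega
  linarith

/-- every dyadic rational in `[0,1)` is enumerated -/
lemma exists_qq : ∀ (k : ℕ) (a : ℕ), a < 2 ^ k → ∃ m, qq m = (a : ℚ) / 2 ^ k := by
  intro k
  induction k with
  | zero =>
    intro a ha
    have : a = 0 := by omega
    subst this
    exact ⟨0, by rw [qq_zero]; simp⟩
  | succ k ih =>
    intro a ha
    rcases Nat.even_or_odd' a with ⟨b, hb | hb⟩
    · obtain ⟨m, hm⟩ := ih b (by rw [pow_succ] at ha; omega)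
      refine ⟨m, ?_⟩
      rw [hm, hb, pow_succ]
      push_cast
      field_simp
    · refine ⟨2 ^ k + b, ?_⟩
      have e1 : 2 * (2 ^ k + b) + 1 = 2 ^ (k + 1) + a := by rw [pow_succ]; omega
      have e2 : Nat.log 2 (2 ^ (k + 1) + a) = k + 1 := by
        rw [Nat.log_eq_iff (Or.inl (by omega))]
        refine ⟨by omega, ?_⟩
        rw [pow_succ 2 (k + 1)]
        omega
      unfold qq
      rw [e1, e2]
      push_cast
      field_simp
      ring

lemma exists_qq' (x : ℚ) (k : ℕ) (a : ℤ) (hx : x = a / 2 ^ k) (h0 : 0 ≤ x) (h1 : x < 1) :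
    ∃ m, qq m = x := by
  have hk : (0 : ℚ) < 2 ^ k := by positivity
  have ha0 : 0 ≤ a := by
    rw [hx] at h0
    have : (0 : ℚ) ≤ a := by
      by_contra hcon
      push Not at hcon
      have := div_neg_of_neg_of_pos hcon hk
      linarith
    exact_mod_cast this
  obtain ⟨b, rfl⟩ := Int.eq_ofNat_of_zero_le ha0
  have hb : b < 2 ^ k := by
    rw [hx, div_lt_one hk] at h1
    exact_mod_cast h1
  obtain ⟨m, hm⟩ := exists_qq k b hb
  exact ⟨m, by rw [hm, hx]; simp⟩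

/-- dyadic rationals -/
def Dy (x : ℚ) : Prop := ∃ (k : ℕ) (a : ℤ), x = a / 2 ^ k

lemma Dy.exists_qq {x : ℚ} (h : Dy x) (h0 : 0 ≤ x) (h1 : x < 1) : ∃ m, qq m = x := by
  obtain ⟨k, a, h⟩ := h
  exact exists_qq' x k a h h0 h1

lemma Dy.sub {x y : ℚ} (hx : Dy x) (hy : Dy y) : Dy (x - y) := by
  obtain ⟨k, a, rfl⟩ := hx
  obtain ⟨l, b, rfl⟩ := hy
  refine ⟨k + l, a * 2 ^ l - b * 2 ^ k, ?_⟩
  push_cast
  rw [pow_add]
  field_simp

lemma Dy.half (k : ℕ) : Dy (1 / 2 ^ k) := ⟨k, 1, by simp⟩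

lemma Dy.qq (m : ℕ) : Dy (qq m) :=
  Dy.sub ⟨_, ((2 * m + 1 : ℕ) : ℤ), by push_cast; rfl⟩ ⟨0, 1, by simp⟩

lemma Dy.pp (m : ℕ) : Dy (pp m) := by
  have h0 : Dy (0 - 1 / 2 ^ (m + 1)) := Dy.sub ⟨0, 0, by simp⟩ (Dy.half (m + 1))
  have h := (Dy.qq m).sub h0
  have e : QP.pp m = QP.qq m - (0 - 1 / 2 ^ (m + 1)) := by unfold QP.pp; ring
  rw [e]; exact h

/-- the functional attached to a sequence -/
noncomputable def Hf (e : ℕ → ℝ) (x : ℚ) : ℝ :=
  if x = 0 then 1 else if x = pp (lev x - 1) then e (lev x - 1) else 0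

lemma Hf_zero (e : ℕ → ℝ) : Hf e 0 = 1 := by simp [Hf]

lemma Hf_pp (e : ℕ → ℝ) (m : ℕ) : Hf e (pp m) = e m := by
  unfold Hf
  rw [if_neg (pp_pos m).ne', lev_pp, Nat.add_sub_cancel, if_pos rfl]

lemma Hf_cases (e : ℕ → ℝ) (x : ℚ) : (x = 0 ∧ Hf e x = 1) ∨ (∃ m, x = pp m ∧ Hf e x = e m) ∨
    Hf e x = 0 := by
  unfold Hf
  by_cases h0 : x = 0
  · left; exact ⟨h0, by rw [if_pos h0]⟩
  · by_cases h1 : x = pp (lev x - 1)
    · right; left
      exact ⟨lev x - 1, h1, by rw [if_neg h0, if_pos h1]⟩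
    · right; right
      rw [if_neg h0, if_neg h1]

lemma Hf_congr {e e' : ℕ → ℝ} {x : ℚ} (h : ∀ k, k < lev x → e k = e' k) : Hf e x = Hf e' x := by
  rcases Hf_cases e x with ⟨h0, h1⟩ | ⟨m, h0, h1⟩ | h1
  · rw [h1, h0, Hf_zero]
  · rw [h1, h0, Hf_pp]
    apply h
    rw [h0, lev_pp]; omega
  · rcases Hf_cases e' x with ⟨h0', h1'⟩ | ⟨m, h0', h1'⟩ | h1'
    · rw [h0', Hf_zero] at h1
      norm_num at h1
    · rw [h1', h1]
      rw [h0', Hf_pp] at h1
      rw [← h, h1]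
      rw [h0', lev_pp]; omega
    · rw [h1, h1']

lemma Hf_eq_zero_of_not_dy (e : ℕ → ℝ) {x : ℚ} (h : ¬ Dy x) : Hf e x = 0 := by
  rcases Hf_cases e x with ⟨h0, h1⟩ | ⟨m, h0, h1⟩ | h1
  · exact absurd ⟨0, 0, by rw [h0]; simp⟩ h
  · rw [h0] at h
    exact absurd (Dy.pp m) h
  · exact h1

lemma Hf_eq_zero_of_one_le (e : ℕ → ℝ) {x : ℚ} (h : 1 ≤ x) : Hf e x = 0 := by
  rcases Hf_cases e x with ⟨h0, h1⟩ | ⟨m, h0, h1⟩ | h1
  · rw [h0] at h; norm_num at h
  · have := pp_lt_one m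
    rw [h0] at h; linarith
  · exact h1

lemma Hf_eq_zero_of_neg (e : ℕ → ℝ) {x : ℚ} (h : x < 0) : Hf e x = 0 := by
  rcases Hf_cases e x with ⟨h0, h1⟩ | ⟨m, h0, h1⟩ | h1
  · rw [h0] at h; exact absurd h (lt_irrefl _)
  · have := pp_pos m
    rw [h0] at h; linarith
  · exact h1

/-- the value to be cancelled at stage `m` -/
noncomputable def Ef (e : ℕ → ℝ) (m : ℕ) : ℝ :=
  Hf e (qq m) + ∑ i ∈ range m, (1 / 2) ^ i * Hf e (qq m + 1 / 2 ^ (i + 1))

lemma lev_qq_add {m i : ℕ} (h : i < m) : lev (qq m + 1 / 2 ^ (i + 1)) ≤ m := by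
  refine (lev_add_le _ _).trans (max_le (lev_qq_le m) ?_)
  rw [lev_half_pow]; omega

lemma Ef_congr {e e' : ℕ → ℝ} {m : ℕ} (h : ∀ k, k < m → e k = e' k) : Ef e m = Ef e' m := by
  unfold Ef
  rw [Hf_congr (e := e) (e' := e') fun k hk => h k (lt_of_lt_of_le hk (lev_qq_le m))]
  congr 1
  apply sum_congr rfl
  intro i hi
  rw [Hf_congr (e := e) (e' := e') fun k hk =>
    h k (lt_of_lt_of_le hk (lev_qq_add (mem_range.1 hi)))]

/-- the values of the functional -/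
noncomputable def eta (m : ℕ) : ℝ :=
  Nat.strongRecOn (motive := fun _ => ℝ) m (fun m ih =>
    -(2 ^ m * Ef (fun k => if h : k < m then ih k h else 0) m))

lemma eta_eq (m : ℕ) : eta m = -(2 ^ m * Ef eta m) := by
  unfold eta
  rw [Nat.strongRecOn_eq]
  congr 2
  apply Ef_congr
  intro k hk
  rw [dif_pos hk]

/-- the functional -/
noncomputable def H (x : ℚ) : ℝ := Hf eta x

lemma H_pp_sub {m i : ℕ} (hi : lev (qq m) ≤ i) (hne : i ≠ m) : H (qq m + 1 / 2 ^ (i + 1)) = 0 := by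
  have hl : lev (qq m + 1 / 2 ^ (i + 1)) = i + 1 := by
    rw [lev_add_of_lt, lev_half_pow]
    rw [lev_half_pow]; omega
  rcases Hf_cases eta (qq m + 1 / 2 ^ (i + 1)) with ⟨h0, h1⟩ | ⟨n, h0, h1⟩ | h1
  · rw [h0, lev_zero] at hl; omega
  · rw [h0, lev_pp] at hl
    have hn : n = i := by omega
    subst hn
    unfold pp at h0
    exact absurd (qq_inj (add_right_cancel h0)).symm hne
  · exact h1

/-- the basic equation -/
lemma basic (x : ℚ) (hx : 0 ≤ x) :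
    Summable (fun i : ℕ => (1 / 2 : ℝ) ^ i * H (x + 1 / 2 ^ (i + 1))) ∧
    H x + ∑' i : ℕ, (1 / 2 : ℝ) ^ i * H (x + 1 / 2 ^ (i + 1)) = 0 := by
  by_cases hq : ∃ m, qq m = x
  · obtain ⟨m, rfl⟩ := hq
    have hz : ∀ i ∉ range (m + 1), (1 / 2 : ℝ) ^ i * H (qq m + 1 / 2 ^ (i + 1)) = 0 := by
      intro i hi
      rw [mem_range] at hi
      rw [H_pp_sub ((lev_qq_le m).trans (by omega)) (by omega), mul_zero]
    refine ⟨summable_of_ne_finset_zero hz, ?_⟩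
    rw [tsum_eq_sum hz, sum_range_succ]
    have h1 : H (qq m + 1 / 2 ^ (m + 1)) = eta m := Hf_pp eta m
    rw [h1, eta_eq]
    have h2 : Ef eta m = H (qq m) + ∑ i ∈ range m, (1 / 2) ^ i * H (qq m + 1 / 2 ^ (i + 1)) := rfl
    have h3 : (1 / 2 : ℝ) ^ m * 2 ^ m = 1 := by
      rw [← mul_pow]; norm_num
    rw [h2]
    linear_combination (-(H (qq m) + ∑ i ∈ range m, (1 / 2) ^ i * H (qq m + 1 / 2 ^ (i + 1)))) * h3
  · have hz : ∀ y : ℚ, Dy y → 0 ≤ y → H (x + y) = 0 := by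
      intro y hy hy0
      by_cases hd : Dy (x + y)
      · have hdx : Dy x := by
          have := hd.sub hy
          rwa [add_sub_cancel_right] at this
        by_cases h1 : x < 1
        · exact absurd (hdx.exists_qq hx h1) hq
        · exact Hf_eq_zero_of_one_le _ (by linarith)
      · exact Hf_eq_zero_of_not_dy _ hd
    have h0 : H x = 0 := by
      have := hz 0 ⟨0, 0, by simp⟩ le_rfl
      rwa [add_zero] at this
    have h1 : ∀ i : ℕ, (1 / 2 : ℝ) ^ i * H (x + 1 / 2 ^ (i + 1)) = 0 := by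
      intro i
      rw [hz _ (Dy.half _) (by positivity), mul_zero]
    simp only [h1, h0]
    exact ⟨summable_zero, by simp⟩

end Pool.Agent.Y282.QP
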