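import Mathlib
import Pool.Agent.Y282.QPfun

set_option autoImplicit false

namespace Pool.Agent.Y282.QP

open Finset

/-- bound for the functional up to level `l` -/
noncomputable def BB (l : ℕ) : ℝ := 1 + ∑ k ∈ range l, |eta k|

lemma one_le_BB (l : ℕ) : 1 ≤ BB l := by
  unfold BB
  have : 0 ≤ ∑ k ∈ range l, |eta k| := sum_nonneg fun _ _ => abs_nonneg _
  linarith

lemma BB_mono {l m : ℕ} (h : l ≤ m) : BB l ≤ BB m := by
  unfold BB
  have : ∑ k ∈ range l, |eta k| ≤ ∑ k ∈ range m, |eta k| :=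
    sum_le_sum_of_subset_of_nonneg (range_mono h) fun _ _ _ => abs_nonneg _
  linarith

lemma abs_eta_le (m : ℕ) : |eta m| ≤ BB (m + 1) := by
  unfold BB
  have : |eta m| ≤ ∑ k ∈ range (m + 1), |eta k| :=
    single_le_sum (f := fun k => |eta k|) (fun _ _ => abs_nonneg _) (mem_range.2 (Nat.lt_succ_self m))
  linarith

/-- the level weights -/
noncomputable def Om (l : ℕ) : ℝ := 4 ^ l * BB l

lemma Om_zero : Om 0 = 1 := by simp [Om, BB]

lemma one_le_Om (l : ℕ) : 1 ≤ Om l := by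
  unfold Om
  exact one_le_mul_of_one_le_of_one_le (one_le_pow₀ (by norm_num)) (one_le_BB l)

lemma Om_pos (l : ℕ) : 0 < Om l := lt_of_lt_of_le one_pos (one_le_Om l)

lemma Om_mono {l m : ℕ} (h : l ≤ m) : Om l ≤ Om m := by
  unfold Om
  exact mul_le_mul (pow_le_pow_right₀ (by norm_num) h) (BB_mono h)
    (le_trans zero_le_one (one_le_BB l)) (by positivity)

lemma eta_div_Om {m l : ℕ} (h : m + 1 ≤ l) : |eta m| / Om l ≤ (1 / 4) ^ (m + 1) := by
  rw [div_le_iff₀ (Om_pos l)]
  have h1 : |eta m| ≤ BB (m + 1) := abs_eta_le m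
  have h2 : (1 / 4 : ℝ) ^ (m + 1) * Om (m + 1) = BB (m + 1) := by
    unfold Om
    rw [← mul_assoc, ← mul_pow]; norm_num
  have h3 : (1 / 4 : ℝ) ^ (m + 1) * Om (m + 1) ≤ (1 / 4 : ℝ) ^ (m + 1) * Om l :=
    mul_le_mul_of_nonneg_left (Om_mono h) (by positivity)
  linarith

/-- the weight on `[0,1)` -/
noncomputable def WW (x : ℚ) : ℝ := Om (lev x)

lemma one_le_WW (x : ℚ) : 1 ≤ WW x := one_le_Om _

lemma WW_pos (x : ℚ) : 0 < WW x := Om_pos _

lemma WW_le {x y z : ℚ} (h : lev z ≤ max (lev x) (lev y)) : WW z ≤ WW x * WW y := by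
  unfold WW
  rcases le_max_iff.1 h with h | h
  · calc Om (lev z) ≤ Om (lev x) := Om_mono h
      _ ≤ Om (lev x) * Om (lev y) := le_mul_of_one_le_right (Om_pos _).le (one_le_Om _)
  · calc Om (lev z) ≤ Om (lev y) := Om_mono h
      _ ≤ Om (lev x) * Om (lev y) := le_mul_of_one_le_left (Om_pos _).le (one_le_Om _)

/-- the terms of the module weight -/
noncomputable def vt (x : ℚ) (n : ℕ) : ℝ := if x ≤ pp n then |eta n| / WW (pp n - x) else 0

lemma vt_nonneg (x : ℚ) (n : ℕ) : 0 ≤ vt x n := by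
  unfold vt
  split_ifs
  · exact div_nonneg (abs_nonneg _) (Om_pos _).le
  · exact le_rfl

lemma vt_le {x : ℚ} {n : ℕ} (h : lev x ≤ n) : vt x n ≤ (1 / 4) ^ (n + 1) := by
  unfold vt
  split_ifs
  · unfold WW
    have : lev (pp n - x) = n + 1 := by
      rw [lev_sub_of_lt, lev_pp]
      rw [lev_pp]; omega
    rw [this]
    exact eta_div_Om le_rfl
  · positivity

lemma summable_quarter : Summable fun n : ℕ => (1 / 4 : ℝ) ^ (n + 1) :=
  (summable_nat_add_iff 1).2 (summable_geometric_of_lt_one (by norm_num) (by norm_num))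

lemma vt_summable (x : ℚ) : Summable (vt x) := by
  have h : Summable fun n : ℕ => vt x (n + lev x) := by
    have h2 : Summable fun n : ℕ => (1 / 4 : ℝ) ^ (n + lev x + 1) :=
      (summable_nat_add_iff (f := fun n : ℕ => (1 / 4 : ℝ) ^ (n + 1)) (lev x)).2 summable_quarter
    exact Summable.of_nonneg_of_le (fun n => vt_nonneg _ _)
      (fun n => vt_le (n := n + lev x) (Nat.le_add_left _ _)) h2
  exact (summable_nat_add_iff (f := vt x) (lev x)).1 h

/-- the weight on `[1,2)`, shifted to `[0,1)` -/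
noncomputable def VV (x : ℚ) : ℝ := 1 + ∑' n, vt x n

lemma one_le_VV (x : ℚ) : 1 ≤ VV x := by
  unfold VV
  have : 0 ≤ ∑' n, vt x n := tsum_nonneg (vt_nonneg x)
  linarith

lemma VV_add_le (x y : ℚ) (hy : 0 ≤ y) : VV (x + y) ≤ VV x * WW y := by
  unfold VV
  have h1 : ∀ n, vt (x + y) n ≤ vt x n * WW y := by
    intro n
    by_cases h : x + y ≤ pp n
    · have h' : x ≤ pp n := by linarith
      unfold vt
      rw [if_pos h, if_pos h', div_mul_eq_mul_div, div_le_div_iff₀ (WW_pos _) (WW_pos _)]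
      have h2 : WW (pp n - x) ≤ WW (pp n - (x + y)) * WW y := by
        apply WW_le
        have e : pp n - x = (pp n - (x + y)) + y := by ring
        rw [e]
        exact lev_add_le _ _
      calc |eta n| * WW (pp n - x) ≤ |eta n| * (WW (pp n - (x + y)) * WW y) :=
            mul_le_mul_of_nonneg_left h2 (abs_nonneg _)
        _ = |eta n| * WW y * WW (pp n - (x + y)) := by ring
    · have : vt (x + y) n = 0 := by unfold vt; rw [if_neg h]
      rw [this]
      exact mul_nonneg (vt_nonneg _ _) (Om_pos _).le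
  have h2 : ∑' n, vt (x + y) n ≤ (∑' n, vt x n) * WW y := by
    rw [← tsum_mul_right]
    exact Summable.tsum_le_tsum h1 (vt_summable _) ((vt_summable x).mul_right _)
  have h3 := one_le_WW y
  nlinarith

lemma abs_H_le_VV (x : ℚ) : |H x| ≤ VV x := by
  rcases Hf_cases eta x with ⟨h0, h1⟩ | ⟨m, h0, h1⟩ | h1
  · unfold H; rw [h1, abs_one]; exact one_le_VV x
  · unfold H; rw [h1]
    have h2 : vt x m = |eta m| := by
      unfold vt
      rw [if_pos h0.le, h0, sub_self]
      unfold WW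
      rw [lev_zero, Om_zero, div_one]
    have h3 : vt x m ≤ ∑' n, vt x n := (vt_summable x).le_tsum m fun n _ => vt_nonneg _ _
    unfold VV
    linarith
  · unfold H; rw [h1, abs_zero]; exact le_trans zero_le_one (one_le_VV x)

lemma abs_H_le_BB (x : ℚ) : |H x| ≤ BB (lev x) := by
  rcases Hf_cases eta x with ⟨h0, h1⟩ | ⟨m, h0, h1⟩ | h1
  · unfold H; rw [h1, abs_one]; exact one_le_BB _
  · unfold H; rw [h1, h0, lev_pp]; exact abs_eta_le m
  · unfold H; rw [h1, abs_zero]; exact le_trans zero_le_one (one_le_BB _)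

lemma sum_half (m : ℕ) : ∑ i ∈ range m, (1 / 2 : ℝ) ^ i ≤ 2 := by
  have h := Summable.sum_le_tsum (range m) (fun i _ => by positivity)
    (summable_geometric_of_lt_one (by norm_num : (0:ℝ) ≤ 1/2) (by norm_num : (1/2:ℝ) < 1))
  rw [tsum_geometric_of_lt_one (by norm_num) (by norm_num)] at h
  refine h.trans (by norm_num)

lemma abs_Ef_le (m : ℕ) : |Ef eta m| ≤ 3 * BB (lev (qq m)) := by
  unfold Ef
  have hB : 0 ≤ BB (lev (qq m)) := le_trans zero_le_one (one_le_BB _)
  have h1 : ∀ i ∈ range m, |(1 / 2 : ℝ) ^ i * Hf eta (qq m + 1 / 2 ^ (i + 1))| ≤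
      (1 / 2) ^ i * BB (lev (qq m)) := by
    intro i hi
    rw [abs_mul, abs_of_pos (by positivity : (0:ℝ) < (1/2) ^ i)]
    apply mul_le_mul_of_nonneg_left _ (by positivity)
    by_cases hl : lev (qq m) ≤ i
    · have := H_pp_sub (m := m) hl (by have := mem_range.1 hi; omega)
      unfold H at this
      rw [this, abs_zero]; exact hB
    · refine (abs_H_le_BB _).trans (BB_mono ?_)
      refine (lev_add_le _ _).trans (max_le le_rfl ?_)
      rw [lev_half_pow]; omega
  calc |Hf eta (qq m) + ∑ i ∈ range m, (1 / 2) ^ i * Hf eta (qq m + 1 / 2 ^ (i + 1))|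
      ≤ |Hf eta (qq m)| + |∑ i ∈ range m, (1 / 2) ^ i * Hf eta (qq m + 1 / 2 ^ (i + 1))| :=
        abs_add_le _ _
    _ ≤ BB (lev (qq m)) + ∑ i ∈ range m, (1 / 2) ^ i * BB (lev (qq m)) := by
        apply add_le_add (abs_H_le_BB _)
        exact (abs_sum_le_sum_abs _ _).trans (sum_le_sum h1)
    _ = BB (lev (qq m)) + (∑ i ∈ range m, (1 / 2) ^ i) * BB (lev (qq m)) := by rw [sum_mul]
    _ ≤ BB (lev (qq m)) + 2 * BB (lev (qq m)) := by
        have := mul_le_mul_of_nonneg_right (sum_half m) hB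
        linarith
    _ = _ := by ring

lemma vt_self (m : ℕ) : (1 / 2 : ℝ) ^ m * vt (1 / 2 ^ (m + 1)) m ≤ 12 / ((m : ℝ) + 1) ^ 2 := by
  have hle : (1 : ℚ) / 2 ^ (m + 1) ≤ pp m := by
    unfold pp; have := qq_nonneg m; linarith
  have he : pp m - 1 / 2 ^ (m + 1) = qq m := by unfold pp; ring
  unfold vt
  rw [if_pos hle, he]
  have h1 : (1 / 2 : ℝ) ^ m * |eta m| = |Ef eta m| := by
    rw [eta_eq, abs_neg, abs_mul, abs_of_pos (by positivity : (0:ℝ) < 2 ^ m), ← mul_assoc,
      ← mul_pow]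
    norm_num
  rw [← mul_div_assoc, h1]
  unfold WW Om
  have hB : 0 < BB (lev (qq m)) := lt_of_lt_of_le one_pos (one_le_BB _)
  have h2 : 2 * m + 1 < 2 ^ (Nat.log 2 (2 * m + 1) + 1) := Nat.lt_pow_succ_log_self (by norm_num) _
  rw [← lev_qq m] at h2
  set l := lev (qq m) with hl
  have h3 : ((m : ℝ) + 1) ≤ 2 ^ l := by
    have h4 : 2 * m + 1 + 1 ≤ 2 * 2 ^ l := by rw [pow_succ] at h2; omega
    have h5 : m + 1 ≤ 2 ^ l := by omega
    exact_mod_cast h5
  have h4 : ((m : ℝ) + 1) ^ 2 ≤ 4 ^ l := by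
    have : (4 : ℝ) ^ l = (2 ^ l) ^ 2 := by
      rw [← pow_mul, mul_comm, pow_mul]; norm_num
    rw [this]
    exact pow_le_pow_left₀ (by positivity) h3 2
  rw [div_le_div_iff₀ (by positivity) (by positivity)]
  have h5 := abs_Ef_le m
  rw [← hl] at h5
  calc |Ef eta m| * ((m : ℝ) + 1) ^ 2 ≤ (3 * BB l) * 4 ^ l :=
        mul_le_mul h5 h4 (by positivity) (by positivity)
    _ ≤ 12 * (4 ^ l * BB l) := by nlinarith [mul_pos (pow_pos (by norm_num : (0:ℝ) < 4) l) hB]

lemma VV_half_le (m : ℕ) : (1 / 2 : ℝ) ^ m * VV (1 / 2 ^ (m + 1)) ≤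
    2 * (1 / 2) ^ m + 12 / ((m : ℝ) + 1) ^ 2 := by
  have h1 : ∀ n, vt (1 / 2 ^ (m + 1)) n ≤ (1 / 4) ^ (n + 1) +
      (if n = m then vt (1 / 2 ^ (m + 1)) m else 0) := by
    intro n
    by_cases hn : n = m
    · subst hn
      rw [if_pos rfl]
      have : (0:ℝ) ≤ (1 / 4) ^ (n + 1) := by positivity
      linarith
    · rw [if_neg hn, add_zero]
      unfold vt
      split_ifs with h
      · have hl : n + 1 ≤ lev (pp n - 1 / 2 ^ (m + 1)) := by
          rcases lt_or_gt_of_ne hn with h2 | h2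
          · rw [lev_sub_of_gt, lev_half_pow]
            · omega
            · rw [lev_half_pow, lev_pp]; omega
          · rw [lev_sub_of_lt, lev_pp]
            rw [lev_half_pow, lev_pp]; omega
        exact eta_div_Om hl
      · positivity
  have h2 : ∑' n, vt (1 / 2 ^ (m + 1)) n ≤ 1 + vt (1 / 2 ^ (m + 1)) m := by
    have hs2 : Summable fun n => (if n = m then vt (1 / 2 ^ (m + 1)) m else 0) :=
      (hasSum_ite_eq m _).summable
    calc ∑' n, vt (1 / 2 ^ (m + 1)) n ≤ ∑' n, ((1 / 4 : ℝ) ^ (n + 1) +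
        (if n = m then vt (1 / 2 ^ (m + 1)) m else 0)) :=
          Summable.tsum_le_tsum h1 (vt_summable _) (summable_quarter.add hs2)
      _ = ∑' n, (1 / 4 : ℝ) ^ (n + 1) + vt (1 / 2 ^ (m + 1)) m := by
          rw [summable_quarter.tsum_add hs2, tsum_ite_eq]
      _ ≤ _ := by
          have : ∑' n : ℕ, (1 / 4 : ℝ) ^ (n + 1) ≤ 1 := by
            simp only [pow_succ]
            rw [tsum_mul_right, tsum_geometric_of_lt_one (by norm_num) (by norm_num)]
            norm_num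
          linarith
  have h3 := vt_self m
  unfold VV
  have h4 : (0:ℝ) < (1 / 2) ^ m := by positivity
  nlinarith

lemma summable_VV : Summable fun m : ℕ => (1 / 2 : ℝ) ^ m * VV (1 / 2 ^ (m + 1)) := by
  have h1 : Summable fun m : ℕ => 2 * (1 / 2 : ℝ) ^ m :=
    (summable_geometric_of_lt_one (by norm_num) (by norm_num)).mul_left 2
  have h2 : Summable fun m : ℕ => 12 / ((m : ℝ) + 1) ^ 2 := by
    have h3 : Summable fun m : ℕ => 1 / ((m + 1 : ℕ) : ℝ) ^ 2 :=
      (summable_nat_add_iff 1).2 (Real.summable_one_div_nat_pow.2 (by norm_num))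
    refine (h3.mul_left 12).congr fun m => ?_
    push_cast
    ring
  exact Summable.of_nonneg_of_le
    (fun m => mul_nonneg (by positivity) (le_trans zero_le_one (one_le_VV _))) VV_half_le
    (h1.add h2)

end Pool.Agent.Y282.QP
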