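import Mathlib
import Pool.Agent.Y282.QPwt

set_option autoImplicit false

namespace Pool.Agent.Y282.QP

open Finset Filter Topology

/-- the constant -/
noncomputable def kap : ℝ := 1 / (2 * VV 0)

lemma kap_pos : 0 < kap := by
  unfold kap
  have := one_le_VV 0
  positivity

lemma kap_le : kap ≤ 1 / 2 := by
  unfold kap
  have := one_le_VV 0
  apply one_div_le_one_div_of_le (by norm_num)
  linarith

lemma kap_mul : kap * VV 0 ≤ 1 := by
  unfold kap
  have := one_le_VV 0
  rw [div_mul_eq_mul_div, one_mul, div_le_one (by positivity)]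
  linarith

/-- the local part of the weight -/
noncomputable def UU (x : ℚ) : ℝ := if x < 1 then WW x else if x < 2 then VV (x - 1) else 1

lemma one_le_UU (x : ℚ) : 1 ≤ UU x := by
  unfold UU
  split_ifs
  · exact one_le_WW x
  · exact one_le_VV _
  · exact le_rfl

/-- the weight -/
noncomputable def om (x : ℚ) : ℝ := kap ^ (⌊x⌋₊ ^ 2) * UU x

lemma om_pos (x : ℚ) : 0 < om x :=
  mul_pos (pow_pos kap_pos _) (lt_of_lt_of_le one_pos (one_le_UU x))

lemma kap_pow_le (s t : ℚ) (hs : 0 ≤ s) (ht : 0 ≤ t) :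
    kap ^ (⌊s + t⌋₊ ^ 2) ≤ kap ^ (⌊s⌋₊ ^ 2) * kap ^ (⌊t⌋₊ ^ 2) := by
  rw [← pow_add]
  apply pow_le_pow_of_le_one kap_pos.le (kap_le.trans (by norm_num))
  have h : ⌊s⌋₊ + ⌊t⌋₊ ≤ ⌊s + t⌋₊ := by
    apply Nat.le_floor
    push_cast
    exact add_le_add (Nat.floor_le hs) (Nat.floor_le ht)
  nlinarith

lemma om_add_le_of {s t : ℚ} (hs : 0 ≤ s) (ht : 0 ≤ t) (h : UU (s + t) ≤ UU s * UU t) :
    om (s + t) ≤ om s * om t := by
  unfold om
  calc kap ^ (⌊s + t⌋₊ ^ 2) * UU (s + t)
      ≤ (kap ^ (⌊s⌋₊ ^ 2) * kap ^ (⌊t⌋₊ ^ 2)) * (UU s * UU t) :=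
        mul_le_mul (kap_pow_le s t hs ht) h (le_trans zero_le_one (one_le_UU _))
          (mul_nonneg (pow_nonneg kap_pos.le _) (pow_nonneg kap_pos.le _))
    _ = _ := by ring

lemma UU_mod (s t : ℚ) (h1 : 1 ≤ s) (ht : 0 ≤ t) (ht1 : t < 1) (hst : s + t < 2) :
    UU (s + t) ≤ UU s * UU t := by
  unfold UU
  rw [if_neg (by linarith), if_pos hst, if_neg (by linarith), if_pos (by linarith), if_pos ht1]
  have e : s + t - 1 = (s - 1) + t := by ring
  rw [e]
  exact VV_add_le _ _ ht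

lemma om_submul (s t : ℚ) (hs : 0 ≤ s) (ht : 0 ≤ t) : om (s + t) ≤ om s * om t := by
  by_cases h2 : s + t < 2
  · by_cases hs1 : s < 1
    · by_cases ht1 : t < 1
      · by_cases hst : s + t < 1
        · apply om_add_le_of hs ht
          unfold UU
          rw [if_pos hst, if_pos hs1, if_pos ht1]
          exact WW_le (lev_add_le s t)
        · have f1 : ⌊s⌋₊ = 0 := Nat.floor_eq_zero.2 hs1
          have f2 : ⌊t⌋₊ = 0 := Nat.floor_eq_zero.2 ht1
          have f3 : ⌊s + t⌋₊ = 1 := by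
            rw [Nat.floor_eq_iff (by linarith)]
            push_cast
            constructor <;> linarith
          unfold om
          rw [f1, f2, f3]
          unfold UU
          rw [if_neg hst, if_pos h2, if_pos hs1, if_pos ht1]
          have h3 : VV (s + t - 1) ≤ VV 0 * WW (s + t - 1) := by
            have := VV_add_le 0 (s + t - 1) (by linarith)
            rwa [zero_add] at this
          have h4 : WW (s + t - 1) ≤ WW s * WW t := by
            apply WW_le
            rw [lev_sub_one]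
            exact lev_add_le s t
          have h5 := kap_mul
          have h6 := kap_pos
          have h7 : 0 < WW s * WW t := mul_pos (WW_pos s) (WW_pos t)
          have h8 := one_le_VV 0
          calc kap ^ 1 ^ 2 * VV (s + t - 1) ≤ kap * (VV 0 * WW (s + t - 1)) := by
                simpa using mul_le_mul_of_nonneg_left h3 h6.le
            _ = (kap * VV 0) * WW (s + t - 1) := by ring
            _ ≤ 1 * WW (s + t - 1) := mul_le_mul_of_nonneg_right h5 (WW_pos _).le
            _ ≤ WW s * WW t := by rw [one_mul]; exact h4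
            _ = _ := by simp
      · apply om_add_le_of hs ht
        have := UU_mod t s (by linarith) hs hs1 (by linarith)
        rw [add_comm s t, mul_comm]
        exact this
    · apply om_add_le_of hs ht
      exact UU_mod s t (by linarith) ht (by linarith) h2
  · apply om_add_le_of hs ht
    have : UU (s + t) = 1 := by
      unfold UU
      rw [if_neg (by linarith), if_neg h2]
    rw [this]
    exact one_le_mul_of_one_le_of_one_le (one_le_UU s) (one_le_UU t)

lemma om_radical (t : ℚ) (ht : 0 < t) :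
    Tendsto (fun n : ℕ => om ((n : ℚ) * t) ^ ((1 : ℝ) / (n : ℝ))) atTop (𝓝 0) := by
  set c : ℝ := (t : ℝ) ^ 2 / 4 with hc
  have ht' : (0 : ℝ) < t := by exact_mod_cast ht
  have hcpos : 0 < c := by positivity
  have hk1 : kap < 1 := lt_of_le_of_lt kap_le (by norm_num)
  have hlim : Tendsto (fun n : ℕ => (kap ^ c) ^ n) atTop (𝓝 0) :=
    tendsto_pow_atTop_nhds_zero_of_lt_one (Real.rpow_nonneg kap_pos.le _)
      (Real.rpow_lt_one kap_pos.le hk1 hcpos)
  obtain ⟨N, hN⟩ := exists_nat_ge (2 / t)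
  refine squeeze_zero' (Eventually.of_forall fun n => Real.rpow_nonneg (om_pos _).le _) ?_ hlim
  filter_upwards [eventually_ge_atTop (max N 1)] with n hn
  have hnN : N ≤ n := (le_max_left _ _).trans hn
  have hn1 : 1 ≤ n := (le_max_right _ _).trans hn
  have hnt : 2 ≤ (n : ℚ) * t := by
    have h1 : (N : ℚ) ≤ n := by exact_mod_cast hnN
    have h2 : 2 / t ≤ (n : ℚ) := hN.trans h1
    rwa [div_le_iff₀ ht] at h2
  have hom : om ((n : ℚ) * t) = kap ^ (⌊(n : ℚ) * t⌋₊ ^ 2) := by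
    unfold om UU
    rw [if_neg (by linarith), if_neg (by linarith), mul_one]
  set k : ℕ := ⌊(n : ℚ) * t⌋₊ with hk
  have hkq : (n : ℚ) * t / 2 ≤ k := by
    have := Nat.lt_floor_add_one ((n : ℚ) * t)
    rw [← hk] at this
    linarith
  have hkr : (n : ℝ) * t / 2 ≤ k := by exact_mod_cast hkq
  have hnr : (0 : ℝ) < n := by exact_mod_cast hn1
  rw [hom, ← Real.rpow_natCast kap (k ^ 2), ← Real.rpow_mul kap_pos.le, ← Real.rpow_natCast (kap ^ c),
    ← Real.rpow_mul kap_pos.le]
  apply Real.rpow_le_rpow_of_exponent_ge kap_pos hk1.le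
  push_cast
  rw [mul_one_div, le_div_iff₀ hnr, hc]
  have h0 : 0 ≤ (n : ℝ) * t / 2 := by positivity
  nlinarith [mul_self_le_mul_self h0 hkr]

/-- the functional on the algebra -/
noncomputable def hh (q : ℚ) : ℂ := ((H (q - 1) : ℝ) : ℂ)

lemma norm_hh_le (q : ℚ) : ‖hh q‖ ≤ kap⁻¹ * om q := by
  unfold hh
  rw [Complex.norm_real, Real.norm_eq_abs]
  have hpos : 0 ≤ kap⁻¹ * om q := mul_nonneg (inv_nonneg.2 kap_pos.le) (om_pos q).le
  by_cases h1 : q < 1
  · have : H (q - 1) = 0 := Hf_eq_zero_of_neg _ (by linarith)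
    rw [this, abs_zero]; exact hpos
  · by_cases h2 : q < 2
    · have f3 : ⌊q⌋₊ = 1 := by
        rw [Nat.floor_eq_iff (by linarith)]
        push_cast
        constructor <;> linarith
      have : om q = kap * VV (q - 1) := by
        unfold om UU
        rw [f3, if_neg h1, if_pos h2]
        simp
      rw [this, ← mul_assoc, inv_mul_cancel₀ kap_pos.ne', one_mul]
      exact abs_H_le_VV _
    · have : H (q - 1) = 0 := Hf_eq_zero_of_one_le _ (by linarith)
      rw [this, abs_zero]; exact hpos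

/-- membership in the algebra -/
def InA (f : ℚ → ℂ) : Prop := (∀ q : ℚ, q < 0 → f q = 0) ∧ Summable (fun q : ℚ => ‖f q‖ * om q)

lemma norm_term_le {f : ℚ → ℂ} (hf : ∀ q : ℚ, q < 0 → f q = 0) (y : ℚ) (hy : 0 ≤ y) (q : ℚ) :
    ‖f q * hh (q + y)‖ ≤ (‖f q‖ * om q) * (kap⁻¹ * om y) := by
  by_cases hq : q < 0
  · rw [hf q hq]; simp
  · push Not at hq
    rw [norm_mul]
    have h1 := norm_hh_le (q + y)
    have h2 := om_submul q y hq hy
    have h3 : kap⁻¹ * om (q + y) ≤ kap⁻¹ * (om q * om y) :=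
      mul_le_mul_of_nonneg_left h2 (inv_nonneg.2 kap_pos.le)
    calc ‖f q‖ * ‖hh (q + y)‖ ≤ ‖f q‖ * (kap⁻¹ * (om q * om y)) :=
          mul_le_mul_of_nonneg_left (h1.trans h3) (norm_nonneg _)
      _ = _ := by ring

lemma summable_term {f : ℚ → ℂ} (hf : InA f) (y : ℚ) (hy : 0 ≤ y) :
    Summable fun q => f q * hh (q + y) :=
  Summable.of_norm_bounded (hf.2.mul_right _) (norm_term_le hf.1 y hy)

/-- the ideal -/
def II : Set (ℚ → ℂ) := {g | InA g ∧ ∀ y : ℚ, 0 ≤ y → ∑' q, g q * hh (q + y) = 0}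

lemma zero_mem : (0 : ℚ → ℂ) ∈ II := by
  refine ⟨⟨fun _ _ => rfl, ?_⟩, fun y _ => ?_⟩
  · simp [summable_zero]
  · simp

lemma InA_add {f g : ℚ → ℂ} (hf : InA f) (hg : InA g) : InA (f + g) := by
  refine ⟨fun q hq => ?_, ?_⟩
  · rw [Pi.add_apply, hf.1 q hq, hg.1 q hq, add_zero]
  · refine Summable.of_nonneg_of_le (fun q => mul_nonneg (norm_nonneg _) (om_pos q).le) (fun q => ?_)
      (hf.2.add hg.2)
    rw [Pi.add_apply, ← add_mul]
    exact mul_le_mul_of_nonneg_right (norm_add_le _ _) (om_pos q).le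

lemma InA_sub {f g : ℚ → ℂ} (hf : InA f) (hg : InA g) : InA (f - g) := by
  refine ⟨fun q hq => ?_, ?_⟩
  · rw [Pi.sub_apply, hf.1 q hq, hg.1 q hq, sub_zero]
  · refine Summable.of_nonneg_of_le (fun q => mul_nonneg (norm_nonneg _) (om_pos q).le) (fun q => ?_)
      (hf.2.add hg.2)
    rw [Pi.sub_apply, ← add_mul]
    exact mul_le_mul_of_nonneg_right (norm_sub_le _ _) (om_pos q).le

lemma add_mem {f g : ℚ → ℂ} (hf : f ∈ II) (hg : g ∈ II) : f + g ∈ II := by
  refine ⟨InA_add hf.1 hg.1, fun y hy => ?_⟩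
  have h : (fun q => (f + g) q * hh (q + y)) = fun q => f q * hh (q + y) + g q * hh (q + y) := by
    funext q; rw [Pi.add_apply, add_mul]
  rw [h, (summable_term hf.1 y hy).tsum_add (summable_term hg.1 y hy), hf.2 y hy, hg.2 y hy,
    add_zero]

lemma smul_mem (c : ℂ) {f : ℚ → ℂ} (hf : f ∈ II) : c • f ∈ II := by
  refine ⟨⟨fun q hq => ?_, ?_⟩, fun y hy => ?_⟩
  · rw [Pi.smul_apply, hf.1.1 q hq, smul_zero]
  · refine (hf.1.2.mul_left ‖c‖).congr fun q => ?_
    rw [Pi.smul_apply, norm_smul, mul_assoc]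
  · have h : (fun q => (c • f) q * hh (q + y)) = fun q => c * (f q * hh (q + y)) := by
      funext q; rw [Pi.smul_apply, smul_eq_mul, mul_assoc]
    rw [h, tsum_mul_left, hf.2 y hy, mul_zero]

/-- the shear -/
def shear : ℚ × ℚ ≃ ℚ × ℚ where
  toFun p := (p.2, p.1 - p.2)
  invFun p := (p.1 + p.2, p.1)
  left_inv p := by ext <;> simp
  right_inv p := by ext <;> simp

lemma conv_summable {a f : ℚ → ℂ} (ha : InA a) (hf : InA f) :
    Summable fun p : ℚ × ℚ => ‖a p.2‖ * ‖f (p.1 - p.2)‖ * om p.1 := by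
  have h1 : Summable fun p : ℚ × ℚ => (‖a p.1‖ * om p.1) * (‖f p.2‖ * om p.2) :=
    ha.2.mul_of_nonneg hf.2 (fun q => mul_nonneg (norm_nonneg _) (om_pos q).le)
      (fun q => mul_nonneg (norm_nonneg _) (om_pos q).le)
  have h2 : Summable fun p : ℚ × ℚ => (‖a p.2‖ * om p.2) * (‖f (p.1 - p.2)‖ * om (p.1 - p.2)) :=
    (shear.summable_iff (f := fun p : ℚ × ℚ => (‖a p.1‖ * om p.1) * (‖f p.2‖ * om p.2))).2 h1
  refine Summable.of_nonneg_of_le (fun p => by have := (om_pos p.1).le; positivity) (fun p => ?_) h2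
  by_cases h3 : p.2 < 0
  · rw [ha.1 _ h3]; simp
  by_cases h4 : p.1 - p.2 < 0
  · rw [hf.1 _ h4]; simp
  push Not at h3 h4
  have h5 := om_submul p.2 (p.1 - p.2) h3 h4
  have e : p.2 + (p.1 - p.2) = p.1 := by ring
  rw [e] at h5
  calc ‖a p.2‖ * ‖f (p.1 - p.2)‖ * om p.1 ≤ ‖a p.2‖ * ‖f (p.1 - p.2)‖ * (om p.2 * om (p.1 - p.2)) :=
        mul_le_mul_of_nonneg_left h5 (by positivity)
    _ = _ := by ring

lemma conv_mem {a f : ℚ → ℂ} (ha : InA a) (hf : f ∈ II) :
    (fun t : ℚ => ∑' s : ℚ, a s * f (t - s)) ∈ II := by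
  have hs := conv_summable ha hf.1
  have hfib : ∀ t : ℚ, Summable fun s : ℚ => ‖a s * f (t - s)‖ := by
    intro t
    have h1 : Summable fun s : ℚ => ‖a s‖ * ‖f (t - s)‖ * om t := hs.prod_factor t
    have h2 := h1.mul_right (om t)⁻¹
    refine h2.congr fun s => ?_
    rw [mul_assoc, mul_inv_cancel₀ (om_pos t).ne', mul_one, norm_mul]
  refine ⟨⟨fun t ht => ?_, ?_⟩, fun y hy => ?_⟩
  · convert tsum_zero with s
    by_cases hs0 : s < 0
    · rw [ha.1 s hs0, zero_mul]
    · rw [hf.1.1 (t - s) (by push Not at hs0; linarith), mul_zero]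
  · have h1 : Summable fun t : ℚ => ∑' s : ℚ, ‖a s‖ * ‖f (t - s)‖ * om t := hs.prod
    refine Summable.of_nonneg_of_le (fun q => mul_nonneg (norm_nonneg _) (om_pos q).le) (fun t => ?_) h1
    rw [tsum_mul_right]
    apply mul_le_mul_of_nonneg_right _ (om_pos t).le
    refine (norm_tsum_le_tsum_norm (hfib t)).trans (le_of_eq ?_)
    congr 1
    funext s
    rw [norm_mul]
  · have hsum : Summable fun p : ℚ × ℚ => a p.2 * f (p.1 - p.2) * hh (p.1 + y) := by
      refine Summable.of_norm_bounded (hs.mul_right (kap⁻¹ * om y)) fun p => ?_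
      by_cases hp : p.1 < 0
      · have h0 : a p.2 * f (p.1 - p.2) = 0 := by
          by_cases hs0 : p.2 < 0
          · rw [ha.1 _ hs0, zero_mul]
          · rw [hf.1.1 (p.1 - p.2) (by push Not at hs0; linarith), mul_zero]
        rw [h0, zero_mul, norm_zero]
        have := (om_pos p.1).le
        have := (om_pos y).le
        have := kap_pos.le
        positivity
      · push Not at hp
        rw [norm_mul, norm_mul]
        have h1 := norm_hh_le (p.1 + y)
        have h2 := om_submul p.1 y hp hy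
        have h3 : kap⁻¹ * om (p.1 + y) ≤ kap⁻¹ * (om p.1 * om y) :=
          mul_le_mul_of_nonneg_left h2 (inv_nonneg.2 kap_pos.le)
        calc ‖a p.2‖ * ‖f (p.1 - p.2)‖ * ‖hh (p.1 + y)‖
            ≤ ‖a p.2‖ * ‖f (p.1 - p.2)‖ * (kap⁻¹ * (om p.1 * om y)) :=
              mul_le_mul_of_nonneg_left (h1.trans h3) (by positivity)
          _ = _ := by ring
    have h1 : ∑' t : ℚ, (∑' s : ℚ, a s * f (t - s)) * hh (t + y) =
        ∑' t : ℚ, ∑' s : ℚ, a s * f (t - s) * hh (t + y) := by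
      congr 1; funext t
      rw [tsum_mul_right]
    have hswap : ∑' t : ℚ, ∑' s : ℚ, a s * f (t - s) * hh (t + y) =
        ∑' s : ℚ, ∑' t : ℚ, a s * f (t - s) * hh (t + y) :=
      (Summable.tsum_comm (f := fun s t : ℚ => a s * f (t - s) * hh (t + y))
        ((Equiv.prodComm ℚ ℚ).summable_iff.2 hsum))
    rw [h1, hswap]
    convert tsum_zero with s
    by_cases hs0 : s < 0
    · convert tsum_zero with t
      rw [ha.1 s hs0, zero_mul, zero_mul]
    · push Not at hs0
      have h2 : ∑' t : ℚ, a s * f (t - s) * hh (t + y) =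
          ∑' r : ℚ, a s * (f r * hh (r + (s + y))) := by
        rw [← (Equiv.subRight s).tsum_eq (fun r : ℚ => a s * (f r * hh (r + (s + y))))]
        congr 1; funext t
        rw [Equiv.subRight_apply, mul_assoc]
        have e : t - s + (s + y) = t + y := by ring
        rw [e]
      rw [h2, tsum_mul_left, hf.2 (s + y) (by linarith), mul_zero]

lemma closed_mem {f : ℚ → ℂ} (hf : InA f)
    (h : ∀ ε : ℝ, 0 < ε → ∃ g ∈ II, ∑' q : ℚ, ‖f q - g q‖ * om q < ε) : f ∈ II := by
  refine ⟨hf, fun y hy => ?_⟩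
  by_contra hne
  have hpos : 0 < ‖∑' q, f q * hh (q + y)‖ := norm_pos_iff.2 hne
  have hC : 0 < kap⁻¹ * om y := mul_pos (inv_pos.2 kap_pos) (om_pos y)
  obtain ⟨g, hg, hlt⟩ := h (‖∑' q, f q * hh (q + y)‖ / (kap⁻¹ * om y)) (div_pos hpos hC)
  have hfg := InA_sub hf hg.1
  have h1 : ∑' q, f q * hh (q + y) = ∑' q, (f - g) q * hh (q + y) := by
    have : ∑' q, (f - g) q * hh (q + y) =
        ∑' q, f q * hh (q + y) - ∑' q, g q * hh (q + y) := by
      rw [← (summable_term hf y hy).tsum_sub (summable_term hg.1 y hy)]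
      congr 1; funext q
      rw [Pi.sub_apply, sub_mul]
    rw [this, hg.2 y hy, sub_zero]
  have h2 : ‖∑' q, (f - g) q * hh (q + y)‖ ≤ (∑' q, ‖(f - g) q‖ * om q) * (kap⁻¹ * om y) := by
    rw [← tsum_mul_right]
    exact tsum_of_norm_bounded (hfg.2.mul_right _).hasSum (norm_term_le hfg.1 y hy)
  rw [← h1] at h2
  have h3 : (∑' q, ‖(f - g) q‖ * om q) < ‖∑' q, f q * hh (q + y)‖ / (kap⁻¹ * om y) := hlt
  rw [lt_div_iff₀ hC] at h3
  linarith

/-- positions -/
def phi : ℕ → ℚ
  | 0 => 1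
  | (m + 1) => 1 + 1 / 2 ^ (m + 1)

/-- coefficients -/
noncomputable def cc : ℕ → ℂ
  | 0 => 1
  | (m + 1) => (1 / 2) ^ m

lemma phi_inj : Function.Injective phi := by
  have h : ∀ m : ℕ, lev (phi m) = m := by
    intro m
    cases m with
    | zero => exact lev_one
    | succ m =>
      show lev (1 + 1 / 2 ^ (m + 1)) = m + 1
      rw [lev_add_of_lt, lev_half_pow]
      rw [lev_half_pow, lev_one]; omega
  intro m n hmn
  rw [← h m, ← h n, hmn]

lemma phi_pos (m : ℕ) : 0 < phi m := by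
  cases m with
  | zero => exact one_pos
  | succ m => show (0 : ℚ) < 1 + 1 / 2 ^ (m + 1); positivity

/-- the generator -/
noncomputable def f0 : ℚ → ℂ := Function.extend phi cc 0

lemma tsum_f0 (g : ℚ → ℂ) : ∑' q, f0 q * g q = ∑' k, cc k * g (phi k) := by
  have h : (fun q => f0 q * g q) = Function.extend phi (fun k => cc k * g (phi k)) 0 := by
    funext q
    by_cases hq : ∃ k, phi k = q
    · obtain ⟨k, rfl⟩ := hq
      unfold f0
      rw [phi_inj.extend_apply, phi_inj.extend_apply]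
    · unfold f0
      rw [Function.extend_apply' _ _ _ hq, Function.extend_apply' _ _ _ hq]
      simp
  rw [h, tsum_extend_zero phi_inj]

lemma om_phi (m : ℕ) : om (phi (m + 1)) = kap * VV (1 / 2 ^ (m + 1)) := by
  have h0 : (0 : ℚ) < 1 / 2 ^ (m + 1) := by positivity
  have h1 : (1 : ℚ) / 2 ^ (m + 1) < 1 := by
    rw [div_lt_one (by positivity)]
    exact one_lt_pow₀ (by norm_num) (by omega)
  have f3 : ⌊phi (m + 1)⌋₊ = 1 := by
    rw [Nat.floor_eq_iff (phi_pos _).le]
    unfold phi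
    push_cast
    constructor <;> linarith
  unfold om
  rw [f3]
  unfold UU phi
  rw [if_neg (by linarith), if_pos (by linarith)]
  have e : (1 : ℚ) + 1 / 2 ^ (m + 1) - 1 = 1 / 2 ^ (m + 1) := by ring
  rw [e]
  simp

lemma f0_InA : InA f0 := by
  constructor
  · intro q hq
    unfold f0
    rw [Function.extend_apply']
    · rfl
    · rintro ⟨k, rfl⟩
      exact absurd (phi_pos k) (by linarith)
  · have h : (fun q => ‖f0 q‖ * om q) = Function.extend phi (fun k => ‖cc k‖ * om (phi k)) 0 := by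
      funext q
      by_cases hq : ∃ k, phi k = q
      · obtain ⟨k, rfl⟩ := hq
        unfold f0
        rw [phi_inj.extend_apply, phi_inj.extend_apply]
      · unfold f0
        rw [Function.extend_apply' _ _ _ hq, Function.extend_apply' _ _ _ hq]
        simp
    rw [h, summable_extend_zero phi_inj, ← summable_nat_add_iff 1]
    refine (summable_VV.mul_left kap).congr fun m => ?_
    rw [om_phi]
    show kap * ((1 / 2) ^ m * VV (1 / 2 ^ (m + 1))) = ‖((1 / 2 : ℂ)) ^ m‖ * (kap * VV (1 / 2 ^ (m + 1)))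
    rw [norm_pow]
    have : ‖(1 / 2 : ℂ)‖ = 1 / 2 := by simp
    rw [this]
    ring

lemma cc_succ (m : ℕ) : cc (m + 1) = (((1 / 2 : ℝ) ^ m : ℝ) : ℂ) := by
  have h : cc (m + 1) = (1 / 2 : ℂ) ^ m := rfl
  rw [h]
  push_cast
  rfl

lemma hh_phi_succ (m : ℕ) (y : ℚ) :
    hh (phi (m + 1) + y) = ((H (y + 1 / 2 ^ (m + 1)) : ℝ) : ℂ) := by
  have h : phi (m + 1) + y - 1 = y + 1 / 2 ^ (m + 1) := by
    have h' : phi (m + 1) = 1 + 1 / 2 ^ (m + 1) := rfl
    rw [h']
    ring
  unfold hh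
  rw [h]

lemma hh_phi_zero (y : ℚ) : hh (phi 0 + y) = ((H y : ℝ) : ℂ) := by
  have h : phi 0 + y - 1 = y := by
    have h' : phi 0 = 1 := rfl
    rw [h']
    ring
  unfold hh
  rw [h]

lemma tsum_cc (y : ℚ) (hy : 0 ≤ y) : ∑' k, cc k * hh (phi k + y) = 0 := by
  obtain ⟨h1, h2⟩ := basic y hy
  have e : ∀ m, cc (m + 1) * hh (phi (m + 1) + y) =
      (((1 / 2 : ℝ) ^ m * H (y + 1 / 2 ^ (m + 1)) : ℝ) : ℂ) := by
    intro m
    rw [cc_succ, hh_phi_succ, Complex.ofReal_mul]
  have e' : (fun m => cc (m + 1) * hh (phi (m + 1) + y)) =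
      fun m => (((1 / 2 : ℝ) ^ m * H (y + 1 / 2 ^ (m + 1)) : ℝ) : ℂ) := funext e
  have hs : Summable fun m => cc (m + 1) * hh (phi (m + 1) + y) := by
    rw [e']
    exact Complex.summable_ofReal.2 h1
  have h3 := ((summable_nat_add_iff (f := fun k => cc k * hh (phi k + y)) 1).1 hs).tsum_eq_zero_add
  have h4 : cc 0 = 1 := rfl
  rw [h3, e', hh_phi_zero, ← Complex.ofReal_tsum, h4, one_mul, ← Complex.ofReal_add, h2,
    Complex.ofReal_zero]

lemma f0_mem : f0 ∈ II :=
  ⟨f0_InA, fun y hy => (tsum_f0 fun q => hh (q + y)).trans (tsum_cc y hy)⟩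

lemma f0_one : f0 1 = 1 := by
  have h := phi_inj.extend_apply cc 0 0
  exact h

/-- the point mass at one -/
noncomputable def pm (q : ℚ) : ℂ := if q = 1 then 1 else 0

lemma pm_one : pm 1 = 1 := if_pos rfl

lemma pm_ne {q : ℚ} (h : q ≠ 1) : pm q = 0 := if_neg h

/-- the point mass at one is not in the ideal -/
lemma pm_not_mem : pm ∉ II := by
  rintro ⟨-, h⟩
  have h1 := h 0 le_rfl
  rw [tsum_eq_single 1] at h1
  · have : hh (1 + 0) = 1 := by
      unfold hh
      have h2 : H ((1 : ℚ) + 0 - 1) = 1 := by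
        have : (1 : ℚ) + 0 - 1 = 0 := by ring
        rw [this]
        exact Hf_zero _
      rw [h2, Complex.ofReal_one]
    rw [this, pm_one, one_mul] at h1
    exact one_ne_zero h1
  · intro q hq
    rw [pm_ne hq, zero_mul]

lemma pm_InA : InA pm := by
  constructor
  · intro q hq
    apply pm_ne
    rintro rfl
    norm_num at hq
  · apply summable_of_ne_finset_zero (s := {1})
    intro q hq
    rw [mem_singleton] at hq
    rw [pm_ne hq, norm_zero, zero_mul]

end Pool.Agent.Y282.QP
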