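import Mathlib
import Pool.Agent.Y282.QPmain

set_option autoImplicit false

namespace Pool.Agent.Y282.QP

/-- the ideal `II` is neither zero nor one of the standard ideals -/
theorem fin_contra (key : II = {(0 : ℚ → ℂ)} ∨ ∃ α : ℝ, 0 ≤ α ∧
    (II = {f : ℚ → ℂ | (∀ q : ℚ, q < 0 → f q = 0) ∧
            Summable (fun q : ℚ => ‖f q‖ * om q) ∧
            ∀ q : ℚ, (q : ℝ) < α → f q = 0} ∨
     II = {f : ℚ → ℂ | (∀ q : ℚ, q < 0 → f q = 0) ∧
            Summable (fun q : ℚ => ‖f q‖ * om q) ∧
            ∀ q : ℚ, (q : ℝ) ≤ α → f q = 0})) : False := by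
  have hf0 := f0_mem
  rcases key with hz | ⟨α, -, hI | hI⟩
  · rw [hz] at hf0
    have h1 := congrFun (Set.mem_singleton_iff.1 hf0) 1
    rw [f0_one] at h1
    exact one_ne_zero h1
  · have h1 : α ≤ 1 := by
      by_contra hlt
      push Not at hlt
      rw [hI] at hf0
      have h2 := hf0.2.2 1 (by push_cast; exact hlt)
      rw [f0_one] at h2
      exact one_ne_zero h2
    apply pm_not_mem
    rw [hI]
    refine ⟨pm_InA.1, pm_InA.2, fun q hq => pm_ne ?_⟩
    rintro rfl
    push_cast at hq
    linarith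
  · have h1 : α < 1 := by
      by_contra hlt
      push Not at hlt
      rw [hI] at hf0
      have h2 := hf0.2.2 1 (by push_cast; exact hlt)
      rw [f0_one] at h2
      exact one_ne_zero h2
    apply pm_not_mem
    rw [hI]
    refine ⟨pm_InA.1, pm_InA.2, fun q hq => pm_ne ?_⟩
    rintro rfl
    push_cast at hq
    linarith

end Pool.Agent.Y282.QP
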