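import Pool.Agent.Y282.JcbSum

/-!
# The lower bound
-/

set_option autoImplicit false

namespace Pool.Agent.Y282.Jcb

open scoped ComplexConjugate InnerProductSpace BoundedContinuousFunction CStarMatrix
open Finset

noncomputable section

/-- Point masses. -/
def dl (x0 : ℕ × ℕ) : Alg :=
  BoundedContinuousFunction.ofNormedAddCommGroupDiscrete (fun x => if x = x0 then (1 : ℂ) else 0) 1
    (fun x => by split_ifs <;> simp)

lemma dl_apply (x0 x : ℕ × ℕ) : dl x0 x = if x = x0 then (1 : ℂ) else 0 := rfl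

variable {H : Type*} [NormedAddCommGroup H] [InnerProductSpace ℂ H]

section Lower

variable {p : ℕ} [Fact p.Prime]

lemma dl_val (N : ℕ) (i l : ZMod p) : dl (N, i.val) (N, l.val) = if l = i then (1 : ℂ) else 0 := by
  rw [dl_apply]
  have : ((N, l.val) = (N, i.val)) ↔ l = i := by
    rw [Prod.mk.injEq]
    exact ⟨fun h => ZMod.val_injective p h.2, fun h => by rw [h]; exact ⟨rfl, rfl⟩⟩
  by_cases h : l = i
  · rw [if_pos h, if_pos (this.2 h)]
  · rw [if_neg h, if_neg (fun h' => h (this.1 h'))]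

omit [Fact p.Prime] in
lemma dl_zero (N : ℕ) (i : ZMod p) (x : ℕ × ℕ) (hx : ¬ ∃ l : ZMod p, x = (N, l.val)) :
    dl (N, i.val) x = 0 := by
  rw [dl_apply, if_neg]
  exact fun h => hx ⟨i, h⟩

variable [PartialOrder Alg] [StarOrderedRing Alg]

theorem mult_lower (N : ℕ) (Φ : Alg →ₗ[ℂ] Alg →ₗ[ℂ] (H →L[ℂ] H)) (C : ℝ)
    (hΦ : ∀ (a b : CStarMatrix (Fin p) (Fin p) Alg) (x : Fin p → H),
      ∑ i : Fin p, ‖∑ j : Fin p, ∑ k : Fin p, Φ (a i k) (b k j) (x j)‖ ^ 2
        ≤ (C * ‖a‖ * ‖b‖) ^ 2 * ∑ j : Fin p, ‖x j‖ ^ 2)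
    (θ : ZMod p → ZMod p → ℂ) (hθ : ∀ i j, ‖θ i j‖ ≤ 1) (x0 : H) (hx0 : ‖x0‖ = 1)
    (g : ZMod p → H) (hg : ∀ k, ‖g k‖ = 1) :
    ‖∑ i, ∑ j, θ i j * ⟪g (i + j), Φ (dl (N, i.val)) (dl (N, j.val)) x0⟫_ℂ‖ ≤ √p * |C| := by
  set σ : Fin p ≃ ZMod p := (ZMod.finEquiv p).toEquiv with hσ
  set a : CStarMatrix (Fin p) (Fin p) Alg :=
    CStarMatrix.ofMatrix (fun P Q => θ (σ P - σ Q) (σ Q) • dl (N, (σ P - σ Q).val)) with ha
  set b : CStarMatrix (Fin p) (Fin p) Alg :=
    CStarMatrix.ofMatrix (fun Q R => if σ R = 0 then dl (N, (σ Q).val) else 0) with hb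
  have ha_apply : ∀ P Q, a P Q = θ (σ P - σ Q) (σ Q) • dl (N, (σ P - σ Q).val) := fun _ _ => rfl
  have hb_apply : ∀ Q R, b Q R = if σ R = 0 then dl (N, (σ Q).val) else 0 := fun _ _ => rfl
  have han : ‖a‖ ≤ 1 := by
    refine norm_le_of_vecMul a 1 zero_le_one fun x η => ?_
    rw [one_pow, one_mul]
    by_cases hx : ∃ l : ZMod p, x = (N, l.val)
    · obtain ⟨l, rfl⟩ := hx
      have h1 : ∀ Q, ∑ P, η P * (a P Q) (N, l.val) = η (σ.symm (l + σ Q)) * θ l (σ Q) := by
        intro Q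
        rw [sum_eq_single (σ.symm (l + σ Q))]
        · rw [ha_apply, BoundedContinuousFunction.smul_apply, dl_val, if_pos (by simp)]
          simp
        · intro P _ hP
          rw [ha_apply, BoundedContinuousFunction.smul_apply, dl_val, if_neg, smul_zero, mul_zero]
          intro h
          apply hP
          rw [Equiv.eq_symm_apply, h]
          ring
        · intro h
          exact absurd (mem_univ _) h
      simp_rw [h1]
      rw [← Equiv.sum_comp ((σ.trans (Equiv.addLeft l)).trans σ.symm) (fun i => ‖η i‖ ^ 2)]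
      refine sum_le_sum fun Q _ => ?_
      refine pow_le_pow_left₀ (norm_nonneg _) ?_ 2
      rw [norm_mul]
      calc ‖η (σ.symm (l + σ Q))‖ * ‖θ l (σ Q)‖ ≤ ‖η (σ.symm (l + σ Q))‖ * 1 :=
            mul_le_mul_of_nonneg_left (hθ _ _) (norm_nonneg _)
        _ = _ := by rw [mul_one]; rfl
    · have h1 : ∀ Q, ∑ P, η P * (a P Q) x = 0 := by
        intro Q
        refine sum_eq_zero fun P _ => ?_
        rw [ha_apply, BoundedContinuousFunction.smul_apply, dl_zero N _ x hx, smul_zero, mul_zero]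
      simp_rw [h1]
      simp only [norm_zero, ne_eq, OfNat.ofNat_ne_zero, not_false_eq_true, zero_pow, sum_const_zero]
      exact sum_nonneg fun _ _ => sq_nonneg _
  have hbn : ‖b‖ ≤ 1 := by
    refine norm_le_of_vecMul b 1 zero_le_one fun x η => ?_
    rw [one_pow, one_mul]
    rw [sum_eq_single (σ.symm 0)]
    · by_cases hx : ∃ l : ZMod p, x = (N, l.val)
      · obtain ⟨l, rfl⟩ := hx
        have h1 : ∑ Q, η Q * (b Q (σ.symm 0)) (N, l.val) = η (σ.symm l) := by
          rw [sum_eq_single (σ.symm l)]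
          · rw [hb_apply, if_pos (by simp), dl_val, if_pos (by simp), mul_one]
          · intro Q _ hQ
            rw [hb_apply, if_pos (by simp), dl_val, if_neg, mul_zero]
            intro h
            apply hQ
            rw [Equiv.eq_symm_apply, h]
          · intro h
            exact absurd (mem_univ _) h
        rw [h1]
        exact single_le_sum (f := fun i => ‖η i‖ ^ 2) (fun i _ => sq_nonneg _) (mem_univ _)
      · have h1 : ∑ Q, η Q * (b Q (σ.symm 0)) x = 0 := by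
          refine sum_eq_zero fun Q _ => ?_
          rw [hb_apply, if_pos (by simp), dl_zero N _ x hx, mul_zero]
        rw [h1]
        simp only [norm_zero, ne_eq, OfNat.ofNat_ne_zero, not_false_eq_true, zero_pow]
        exact sum_nonneg fun _ _ => sq_nonneg _
    · intro R _ hR
      have h1 : ∑ Q, η Q * (b Q R) x = 0 := by
        refine sum_eq_zero fun Q _ => ?_
        rw [hb_apply, if_neg]
        · simp
        · intro h
          apply hR
          rw [Equiv.eq_symm_apply, h]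
      rw [h1]
      simp
    · intro h
      exact absurd (mem_univ _) h
  have h := hΦ a b (fun R => if σ R = 0 then x0 else 0)
  have hx : ∑ j : Fin p, ‖(if σ j = 0 then x0 else 0 : H)‖ ^ 2 = 1 := by
    rw [sum_eq_single (σ.symm 0)]
    · rw [if_pos (by simp), hx0]
      norm_num
    · intro R _ hR
      rw [if_neg]
      · simp
      · intro h
        apply hR
        rw [Equiv.eq_symm_apply, h]
    · intro h
      exact absurd (mem_univ _) h
  rw [hx, mul_one] at h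
  set z : Fin p → H := fun P => ∑ Q : Fin p, θ (σ P - σ Q) (σ Q) •
    Φ (dl (N, (σ P - σ Q).val)) (dl (N, (σ Q).val)) x0 with hz
  have hz' : ∀ P, ∑ j : Fin p, ∑ k : Fin p, Φ (a P k) (b k j) (if σ j = 0 then x0 else 0) = z P := by
    intro P
    rw [sum_eq_single (σ.symm 0)]
    · refine sum_congr rfl fun Q _ => ?_
      rw [ha_apply, hb_apply, if_pos (by simp), if_pos (by simp)]
      simp
    · intro R _ hR
      refine sum_eq_zero fun Q _ => ?_
      rw [if_neg, map_zero]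
      intro h
      apply hR
      rw [Equiv.eq_symm_apply, h]
    · intro h
      exact absurd (mem_univ _) h
  simp_rw [hz'] at h
  have hC : ∑ P, ‖z P‖ ^ 2 ≤ C ^ 2 := by
    refine h.trans ?_
    rw [mul_assoc, mul_pow]
    have h1 : ‖a‖ * ‖b‖ ≤ 1 := mul_le_one₀ han (norm_nonneg _) hbn
    have h2 : (‖a‖ * ‖b‖) ^ 2 ≤ 1 := pow_le_one₀ (by positivity) h1
    nlinarith [sq_nonneg C]
  have hsum : ∑ i, ∑ j, θ i j * ⟪g (i + j), Φ (dl (N, i.val)) (dl (N, j.val)) x0⟫_ℂ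
      = ∑ P, ⟪g (σ P), z P⟫_ℂ := by
    rw [sum_comm]
    have h1 : ∀ j : ZMod p, ∑ i, θ i j * ⟪g (i + j), Φ (dl (N, i.val)) (dl (N, j.val)) x0⟫_ℂ
        = ∑ k, θ (k - j) j * ⟪g k, Φ (dl (N, (k - j).val)) (dl (N, j.val)) x0⟫_ℂ := by
      intro j
      rw [← Equiv.sum_comp (Equiv.subRight j)]
      refine sum_congr rfl fun k _ => ?_
      simp only [Equiv.subRight_apply, sub_add_cancel]
    simp_rw [h1]
    rw [sum_comm, ← Equiv.sum_comp σ]
    refine sum_congr rfl fun P _ => ?_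
    rw [hz, ← Equiv.sum_comp σ, inner_sum]
    refine sum_congr rfl fun Q _ => ?_
    rw [inner_smul_right]
  rw [hsum]
  have h1 : ‖∑ P, ⟪g (σ P), z P⟫_ℂ‖ ≤ ∑ P, ‖z P‖ := by
    refine (norm_sum_le _ _).trans (sum_le_sum fun P _ => ?_)
    refine (norm_inner_le_norm _ _).trans ?_
    rw [hg, one_mul]
  refine h1.trans ?_
  have h2 : (∑ P, ‖z P‖) ^ 2 ≤ p * ∑ P, ‖z P‖ ^ 2 := by
    have := sq_sum_le_card_mul_sum_sq (s := (univ : Finset (Fin p))) (f := fun P => ‖z P‖)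
    simpa using this
  have h3 : (∑ P, ‖z P‖) ^ 2 ≤ (√p * |C|) ^ 2 := by
    rw [mul_pow, Real.sq_sqrt (Nat.cast_nonneg p), sq_abs]
    exact h2.trans (mul_le_mul_of_nonneg_left hC (Nat.cast_nonneg p))
  exact (sq_le_sq₀ (sum_nonneg fun _ _ => norm_nonneg _) (by positivity)).1 h3

end Lower

section Val

/-- The value of the bilinear map at point masses of the same block. -/
lemma W_dl_ne (e : ℕ → H) (N M : ℕ) (hM : M ≠ N) (u v : ℕ) : W e M (dl (N, u)) (dl (N, v)) = 0 := by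
  rw [W, blkFun]
  have : ∀ k : ZMod (pr M), (∑ i : ZMod (pr M), chi (pr M) (i ^ 2 * (k - i)) *
      ((dl (N, u)) (M, i.val) * (dl (N, v)) (M, (k - i).val))) = 0 := by
    intro k
    refine sum_eq_zero fun i _ => ?_
    rw [dl_apply, if_neg (by intro h; exact hM (Prod.mk.inj h).1)]
    ring
  simp_rw [this]
  simp

lemma blk_dl {p : ℕ} [Fact p.Prime] (e : ℕ → H) (N : ℕ) (i j : ZMod p) :
    blkFun e N p (dl (N, i.val)) (dl (N, j.val)) = chi p (i ^ 2 * j) • e (i + j).val := by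
  rw [blkFun, sum_eq_single (i + j)]
  · congr 1
    rw [sum_eq_single i]
    · rw [dl_val, dl_val, if_pos rfl, if_pos (by ring)]
      rw [show i + j - i = j by ring]
      ring
    · intro i' _ hi'
      rw [dl_val, if_neg hi']
      ring
    · intro h
      exact absurd (mem_univ _) h
  · intro k _ hk
    rw [sum_eq_zero, zero_smul]
    intro i' _
    rw [dl_val, dl_val]
    by_cases h : i' = i
    · subst h
      rw [if_neg (show k - i' ≠ j from fun h' => hk (by rw [← h']; ring))]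
      ring
    · rw [if_neg h]
      ring
  · intro h
    exact absurd (mem_univ _) h

variable [PartialOrder Alg] [StarOrderedRing Alg] [CompleteSpace H]

lemma hMap_dl {e : ℕ → H} (he : Orthonormal ℂ e) (N : ℕ) (i j : ZMod (pr N)) :
    hMap e he (dl (N, i.val)) (dl (N, j.val))
      = (((wt N : ℝ) : ℂ) * chi (pr N) (i ^ 2 * j)) • e (i + j).val := by
  rw [hMap_apply, tsum_eq_single N]
  · rw [W, blk_dl, smul_smul]
  · intro M hM
    exact W_dl_ne e N M hM _ _

/-- The operator valued bilinear map. -/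
def phi (e : ℕ → H) (he : Orthonormal ℂ e) : Alg →ₗ[ℂ] Alg →ₗ[ℂ] (H →L[ℂ] H) :=
  (hMap e he).compr₂
    { toFun := fun z => (innerSL ℂ (e 0)).smulRight z
      map_add' := fun x y => by ext w; simp
      map_smul' := fun c x => by
        ext w
        change (innerSL ℂ (e 0)) w • (c • x) = c • ((innerSL ℂ (e 0)) w • x)
        rw [smul_comm] }

lemma phi_apply (e : ℕ → H) (he : Orthonormal ℂ e) (a b : Alg) (x : H) :
    phi e he a b x = ⟪e 0, x⟫_ℂ • hMap e he a b := rfl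

theorem phi_jcb {e : ℕ → H} (he : Orthonormal ℂ e) :
    ∃ C : ℝ, ∀ (n m : ℕ) (a : CStarMatrix (Fin n) (Fin n) Alg)
      (b : CStarMatrix (Fin m) (Fin m) Alg) (x : Fin n × Fin m → H),
      ∑ p : Fin n × Fin m, ‖∑ q : Fin n × Fin m, phi e he (a p.1 q.1) (b p.2 q.2) (x q)‖ ^ 2
        ≤ (C * ‖a‖ * ‖b‖) ^ 2 * ∑ q : Fin n × Fin m, ‖x q‖ ^ 2 := by
  refine ⟨4, fun n m a b x => ?_⟩
  simp_rw [phi_apply]
  refine (hMap_bound he a b (fun q => ⟪e 0, x q⟫_ℂ)).trans ?_
  refine mul_le_mul_of_nonneg_left (sum_le_sum fun q _ => ?_) (sq_nonneg _)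
  refine pow_le_pow_left₀ (norm_nonneg _) ?_ 2
  refine (norm_inner_le_norm _ _).trans ?_
  rw [he.1 0, one_mul]

theorem phi_not_decomposable {e : ℕ → H} (he : Orthonormal ℂ e)
    (φ₁ φ₂ : Alg →ₗ[ℂ] Alg →ₗ[ℂ] (H →L[ℂ] H)) (C₁ C₂ : ℝ)
    (h₁ : ∀ (n : ℕ) (a b : CStarMatrix (Fin n) (Fin n) Alg) (x : Fin n → H),
      ∑ i : Fin n, ‖∑ j : Fin n, ∑ k : Fin n, φ₁ (a i k) (b k j) (x j)‖ ^ 2
        ≤ (C₁ * ‖a‖ * ‖b‖) ^ 2 * ∑ j : Fin n, ‖x j‖ ^ 2)
    (h₂ : ∀ (n : ℕ) (b a : CStarMatrix (Fin n) (Fin n) Alg) (x : Fin n → H),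
      ∑ i : Fin n, ‖∑ j : Fin n, ∑ k : Fin n, φ₂ (b i k) (a k j) (x j)‖ ^ 2
        ≤ (C₂ * ‖b‖ * ‖a‖) ^ 2 * ∑ j : Fin n, ‖x j‖ ^ 2)
    (h : ∀ a b, phi e he a b = φ₁ a b + φ₂ b a) : False := by
  have key : ∀ N : ℕ, (2 : ℝ) ^ N ≤ |C₁| + |C₂| := by
    intro N
    have hp0 : (0 : ℝ) < pr N := by
      have : 0 < pr N := (pr_prime N).out.pos
      exact_mod_cast this
    have e0 : ‖e 0‖ = 1 := he.1 0
    have b1 := mult_lower (p := pr N) N φ₁ C₁ (h₁ _)
      (fun i j => chi (pr N) (-(i ^ 2 * j))) (fun i j => (norm_chi _).le) (e 0) e0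
      (fun k => e k.val) (fun k => he.1 _)
    have b2 := mult_lower (p := pr N) N φ₂ C₂ (h₂ _)
      (fun j i => chi (pr N) (-(i ^ 2 * j))) (fun i j => (norm_chi _).le) (e 0) e0
      (fun k => e k.val) (fun k => he.1 _)
    rw [sum_comm] at b2
    have hval : ∀ i j : ZMod (pr N), chi (pr N) (-(i ^ 2 * j))
          * ⟪e (i + j).val, φ₁ (dl (N, i.val)) (dl (N, j.val)) (e 0)⟫_ℂ
        + chi (pr N) (-(i ^ 2 * j))
          * ⟪e (j + i).val, φ₂ (dl (N, j.val)) (dl (N, i.val)) (e 0)⟫_ℂ = ((wt N : ℝ) : ℂ) := by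
      intro i j
      rw [add_comm j i, ← mul_add, ← inner_add_right]
      have : φ₁ (dl (N, i.val)) (dl (N, j.val)) (e 0) + φ₂ (dl (N, j.val)) (dl (N, i.val)) (e 0)
          = (((wt N : ℝ) : ℂ) * chi (pr N) (i ^ 2 * j)) • e (i + j).val := by
        rw [← add_apply, ← h, phi_apply, hMap_dl]
        rw [inner_self_eq_norm_sq_to_K, e0]
        simp
      rw [this, inner_smul_right, inner_self_eq_norm_sq_to_K, he.1]
      have h2 : chi (pr N) (-(i ^ 2 * j)) * chi (pr N) (i ^ 2 * j) = 1 := by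
        rw [← chi_add, neg_add_cancel, chi_zero]
      simp only [map_one, one_pow, mul_one]
      rw [mul_comm, mul_assoc, mul_comm (chi (pr N) (i ^ 2 * j)), h2, mul_one]
    have htot : (∑ i, ∑ j, chi (pr N) (-(i ^ 2 * j))
          * ⟪e (i + j).val, φ₁ (dl (N, i.val)) (dl (N, j.val)) (e 0)⟫_ℂ)
        + (∑ i, ∑ j, chi (pr N) (-(i ^ 2 * j))
          * ⟪e (j + i).val, φ₂ (dl (N, j.val)) (dl (N, i.val)) (e 0)⟫_ℂ)
        = ((pr N : ℝ) ^ 2 * wt N : ℝ) := by
      rw [← sum_add_distrib]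
      simp_rw [← sum_add_distrib, hval]
      rw [sum_const, sum_const, card_univ, ZMod.card, smul_smul, nsmul_eq_mul]
      push_cast
      ring
    have hn : (pr N : ℝ) ^ 2 * wt N ≤ √(pr N) * |C₁| + √(pr N) * |C₂| := by
      have h3 : ‖(((pr N : ℝ) ^ 2 * wt N : ℝ) : ℂ)‖ ≤ √(pr N) * |C₁| + √(pr N) * |C₂| := by
        rw [← htot]
        exact (norm_add_le _ _).trans (add_le_add b1 b2)
      rw [Complex.norm_real, Real.norm_eq_abs] at h3
      exact (le_abs_self _).trans h3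
    have hs : 0 < √(pr N : ℝ) := Real.sqrt_pos.2 hp0
    have hw : (pr N : ℝ) ^ 2 * wt N = √(pr N) * 2 ^ N := by
      rw [wt]
      have : (pr N : ℝ) = √(pr N) ^ 2 := (Real.sq_sqrt hp0.le).symm
      field_simp
      nlinarith [this]
    rw [hw, ← mul_add] at hn
    exact le_of_mul_le_mul_left hn hs
  obtain ⟨N, hN⟩ := pow_unbounded_of_one_lt (|C₁| + |C₂|) (one_lt_two : (1 : ℝ) < 2)
  exact absurd (key N) (not_le.2 hN)

end Val

end

end Pool.Agent.Y282.Jcb
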