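import Mathlib

/-!
# The norm of `CStarMatrix` over an algebra of bounded functions
-/

set_option autoImplicit false

namespace Pool.Agent.Y282.Jcb

open scoped ComplexConjugate InnerProductSpace BoundedContinuousFunction CStarMatrix
open Finset WithCStarModule

noncomputable section

variable {X : Type*} [TopologicalSpace X] [PartialOrder (X →ᵇ ℂ)] [StarOrderedRing (X →ᵇ ℂ)]

lemma inner_self_apply {n : ℕ} (v : C⋆ᵐᵒᵈ(X →ᵇ ℂ, Fin n → (X →ᵇ ℂ))) (x : X) :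
    (∑ i, ⟪v i, v i⟫_(X →ᵇ ℂ)) x = ((∑ i, ‖(v i) x‖ ^ 2 : ℝ) : ℂ) := by
  rw [BoundedContinuousFunction.sum_apply]
  push_cast
  refine sum_congr rfl fun i _ => ?_
  rw [inner_def]
  rw [BoundedContinuousFunction.mul_apply, BoundedContinuousFunction.star_apply]
  exact Complex.mul_conj' _

lemma eval_le {n : ℕ} (v : C⋆ᵐᵒᵈ(X →ᵇ ℂ, Fin n → (X →ᵇ ℂ))) (x : X) :
    ∑ i, ‖(v i) x‖ ^ 2 ≤ ‖v‖ ^ 2 := by
  rw [pi_norm_sq]
  have h := (∑ i, ⟪v i, v i⟫_(X →ᵇ ℂ)).norm_coe_le_norm x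
  rw [inner_self_apply, Complex.norm_real, Real.norm_eq_abs] at h
  exact (le_abs_self _).trans h

lemma norm_le_of_eval {n : ℕ} (v : C⋆ᵐᵒᵈ(X →ᵇ ℂ, Fin n → (X →ᵇ ℂ))) (R : ℝ) (hR : 0 ≤ R)
    (h : ∀ x, ∑ i, ‖(v i) x‖ ^ 2 ≤ R ^ 2) : ‖v‖ ≤ R := by
  have h1 : ‖v‖ ^ 2 ≤ R ^ 2 := by
    rw [pi_norm_sq]
    rw [BoundedContinuousFunction.norm_le (sq_nonneg R)]
    intro x
    rw [inner_self_apply, Complex.norm_real, Real.norm_eq_abs,
      abs_of_nonneg (sum_nonneg fun _ _ => sq_nonneg _)]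
    exact h x
  exact (sq_le_sq₀ (norm_nonneg _) hR).1 h1

/-- Evaluation of a matrix of bounded functions at a point gives a matrix of operator norm
at most the norm of the `CStarMatrix`. -/
theorem eval_matrix_le {n : ℕ} (a : CStarMatrix (Fin n) (Fin n) (X →ᵇ ℂ)) (x : X)
    (ξ : Fin n → ℂ) :
    ∑ i, ‖∑ j, (a i j) x * ξ j‖ ^ 2 ≤ ‖a‖ ^ 2 * ∑ j, ‖ξ j‖ ^ 2 := by
  set v : C⋆ᵐᵒᵈ(X →ᵇ ℂ, Fin n → (X →ᵇ ℂ)) :=
    (WithCStarModule.equiv _ _).symm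
      (fun j => BoundedContinuousFunction.const X (conj (ξ j))) with hv
  have hvn : ‖v‖ ≤ √(∑ j, ‖ξ j‖ ^ 2) := by
    refine norm_le_of_eval v _ (Real.sqrt_nonneg _) fun x => ?_
    rw [Real.sq_sqrt (sum_nonneg fun _ _ => sq_nonneg _)]
    refine le_of_eq (sum_congr rfl fun j _ => ?_)
    have : (v j) x = conj (ξ j) := rfl
    rw [this, RCLike.norm_conj]
  have h1 : ∑ i, ‖((CStarMatrix.toCLM (star a) v) i) x‖ ^ 2 ≤ ‖CStarMatrix.toCLM (star a) v‖ ^ 2 :=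
    eval_le _ x
  have h2 : ‖CStarMatrix.toCLM (star a) v‖ ≤ ‖a‖ * √(∑ j, ‖ξ j‖ ^ 2) := by
    refine ((CStarMatrix.toCLM (star a)).le_opNorm v).trans ?_
    rw [← CStarMatrix.norm_def, norm_star]
    exact mul_le_mul_of_nonneg_left hvn (norm_nonneg _)
  have h3 : ‖CStarMatrix.toCLM (star a) v‖ ^ 2 ≤ ‖a‖ ^ 2 * ∑ j, ‖ξ j‖ ^ 2 := by
    calc _ ≤ (‖a‖ * √(∑ j, ‖ξ j‖ ^ 2)) ^ 2 := pow_le_pow_left₀ (norm_nonneg _) h2 2
      _ = _ := by rw [mul_pow, Real.sq_sqrt (sum_nonneg fun _ _ => sq_nonneg _)]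
  refine le_trans (le_of_eq ?_) (h1.trans h3)
  refine sum_congr rfl fun i _ => ?_
  have h4 : ((CStarMatrix.toCLM (star a) v) i) x = conj (∑ j, (a i j) x * ξ j) := by
    rw [CStarMatrix.toCLM_apply_eq_sum]
    change (∑ j, v j * (star a) j i) x = _
    rw [BoundedContinuousFunction.sum_apply, map_sum]
    refine sum_congr rfl fun j _ => ?_
    rw [BoundedContinuousFunction.mul_apply, map_mul, mul_comm]
    rfl
  rw [h4, RCLike.norm_conj]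

/-- An upper bound of the norm of a `CStarMatrix` of bounded functions. -/
theorem norm_le_of_vecMul {n : ℕ} (a : CStarMatrix (Fin n) (Fin n) (X →ᵇ ℂ)) (C : ℝ) (hC : 0 ≤ C)
    (h : ∀ (x : X) (η : Fin n → ℂ), ∑ j, ‖∑ i, η i * (a i j) x‖ ^ 2 ≤ C ^ 2 * ∑ i, ‖η i‖ ^ 2) :
    ‖a‖ ≤ C := by
  rw [CStarMatrix.norm_def]
  refine ContinuousLinearMap.opNorm_le_bound _ hC fun v => ?_
  refine norm_le_of_eval _ _ (by positivity) fun x => ?_
  have h1 : ∀ j, ((CStarMatrix.toCLM a v) j) x = ∑ i, (v i) x * (a i j) x := by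
    intro j
    rw [CStarMatrix.toCLM_apply_eq_sum]
    change (∑ i, v i * a i j) x = _
    rw [BoundedContinuousFunction.sum_apply]
    rfl
  simp_rw [h1]
  refine (h x (fun i => (v i) x)).trans ?_
  rw [mul_pow]
  exact mul_le_mul_of_nonneg_left (eval_le v x) (sq_nonneg _)

end

end Pool.Agent.Y282.Jcb
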