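import Pool.Agent.Y282.JcbCore
import Pool.Agent.Y282.JcbMatrix

/-!
# Joint complete boundedness of the blocks
-/

set_option autoImplicit false

namespace Pool.Agent.Y282.Jcb

open scoped ComplexConjugate InnerProductSpace BoundedContinuousFunction CStarMatrix Kronecker
open Finset

noncomputable section

section Kron

variable {p : ℕ} [Fact p.Prime]

lemma toE_apply {ι : Type*} [Fintype ι] [DecidableEq ι] (M : Matrix ι ι ℂ)
    (x : EuclideanSpace ℂ ι) (P : ι) :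
    (Matrix.toEuclideanCLM (n := ι) (𝕜 := ℂ) M x) P = ∑ q, M P q * x q := by
  rfl

lemma toE_mul_apply {ι : Type*} [Fintype ι] [DecidableEq ι] (M N : Matrix ι ι ℂ)
    (x : EuclideanSpace ℂ ι) :
    Matrix.toEuclideanCLM (n := ι) (𝕜 := ℂ) M (Matrix.toEuclideanCLM (n := ι) (𝕜 := ℂ) N x)
      = Matrix.toEuclideanCLM (n := ι) (𝕜 := ℂ) (M * N) x := by
  rw [map_mul]
  rfl

lemma toE_adjoint {ι : Type*} [Fintype ι] [DecidableEq ι] (M : Matrix ι ι ℂ) :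
    ContinuousLinearMap.adjoint (Matrix.toEuclideanCLM (n := ι) (𝕜 := ℂ) M)
      = Matrix.toEuclideanCLM (n := ι) (𝕜 := ℂ) M.conjTranspose := by
  rw [← ContinuousLinearMap.star_eq_adjoint, ← map_star]
  rfl

variable {n m : ℕ}

lemma norm_kron_left (F : Matrix (Fin n) (Fin n) ℂ) (α : ℝ) (hα : 0 ≤ α)
    (hF : ∀ η : Fin n → ℂ, ∑ P, ‖∑ q, F P q * η q‖ ^ 2 ≤ α ^ 2 * ∑ q, ‖η q‖ ^ 2) :
    ‖Matrix.toEuclideanCLM (n := Fin n × Fin m) (𝕜 := ℂ) (F ⊗ₖ (1 : Matrix (Fin m) (Fin m) ℂ))‖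
      ≤ α := by
  refine ContinuousLinearMap.opNorm_le_bound _ hα fun x => ?_
  rw [← sq_le_sq₀ (norm_nonneg _) (by positivity), mul_pow, EuclideanSpace.norm_sq_eq,
    EuclideanSpace.norm_sq_eq]
  rw [Fintype.sum_prod_type_right, Fintype.sum_prod_type_right, mul_sum]
  refine sum_le_sum fun P2 _ => ?_
  refine le_trans (le_of_eq (sum_congr rfl fun P1 _ => ?_)) (hF fun q => x (q, P2))
  congr 2
  rw [toE_apply, Fintype.sum_prod_type]
  refine sum_congr rfl fun q1 _ => ?_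
  rw [sum_eq_single P2]
  · simp
  · intro b _ hb
    simp [Matrix.one_apply_ne' hb]
  · intro h
    exact absurd (mem_univ _) h

lemma norm_kron_right (G : Matrix (Fin m) (Fin m) ℂ) (β : ℝ) (hβ : 0 ≤ β)
    (hG : ∀ η : Fin m → ℂ, ∑ P, ‖∑ q, G P q * η q‖ ^ 2 ≤ β ^ 2 * ∑ q, ‖η q‖ ^ 2) :
    ‖Matrix.toEuclideanCLM (n := Fin n × Fin m) (𝕜 := ℂ) ((1 : Matrix (Fin n) (Fin n) ℂ) ⊗ₖ G)‖
      ≤ β := by
  refine ContinuousLinearMap.opNorm_le_bound _ hβ fun x => ?_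
  rw [← sq_le_sq₀ (norm_nonneg _) (by positivity), mul_pow, EuclideanSpace.norm_sq_eq,
    EuclideanSpace.norm_sq_eq]
  rw [Fintype.sum_prod_type, Fintype.sum_prod_type, mul_sum]
  refine sum_le_sum fun P1 _ => ?_
  refine le_trans (le_of_eq (sum_congr rfl fun P2 _ => ?_)) (hG fun q => x (P1, q))
  congr 2
  rw [toE_apply, Fintype.sum_prod_type_right]
  refine sum_congr rfl fun q2 _ => ?_
  rw [sum_eq_single P1]
  · simp
  · intro b _ hb
    simp [Matrix.one_apply_ne' hb]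
  · intro h
    exact absurd (mem_univ _) h

theorem kron_core (hp2 : p ≠ 2) (F : ZMod p → Matrix (Fin n) (Fin n) ℂ)
    (G : ZMod p → Matrix (Fin m) (Fin m) ℂ) (α β : ℝ) (hα : 0 ≤ α) (hβ : 0 ≤ β)
    (hF : ∀ i, ∀ η : Fin n → ℂ, ∑ P, ‖∑ q, F i P q * η q‖ ^ 2 ≤ α ^ 2 * ∑ q, ‖η q‖ ^ 2)
    (hG : ∀ j, ∀ η : Fin m → ℂ, ∑ P, ‖∑ q, G j P q * η q‖ ^ 2 ≤ β ^ 2 * ∑ q, ‖η q‖ ^ 2)
    (ξ : Fin n × Fin m → ℂ) :
    ∑ k, ∑ P : Fin n × Fin m, ‖∑ i, chi p (i ^ 2 * (k - i)) *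
        ∑ q : Fin n × Fin m, F i P.1 q.1 * G (k - i) P.2 q.2 * ξ q‖ ^ 2
      ≤ ((p : ℝ) ^ 2 + p ^ 2 * √p) * ((α * β) ^ 2 * ∑ q, ‖ξ q‖ ^ 2) := by
  set U : ZMod p → EuclideanSpace ℂ (Fin n × Fin m) →L[ℂ] EuclideanSpace ℂ (Fin n × Fin m) :=
    fun i => Matrix.toEuclideanCLM (n := Fin n × Fin m) (𝕜 := ℂ)
      (F i ⊗ₖ (1 : Matrix (Fin m) (Fin m) ℂ)) with hU
  set V : ZMod p → EuclideanSpace ℂ (Fin n × Fin m) →L[ℂ] EuclideanSpace ℂ (Fin n × Fin m) :=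
    fun j => Matrix.toEuclideanCLM (n := Fin n × Fin m) (𝕜 := ℂ)
      ((1 : Matrix (Fin n) (Fin n) ℂ) ⊗ₖ G j) with hV
  have h := core (K := EuclideanSpace ℂ (Fin n × Fin m)) hp2 U V α β hα hβ
    (fun i => norm_kron_left (F i) α hα (hF i)) (fun j => norm_kron_right (G j) β hβ (hG j))
    (by
      intro i j x
      simp only [hU, hV]
      rw [toE_mul_apply, toE_mul_apply, ← Matrix.mul_kronecker_mul, ← Matrix.mul_kronecker_mul]
      simp)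
    (by
      intro i j x
      simp only [hU, hV]
      rw [toE_adjoint, toE_mul_apply, toE_mul_apply, Matrix.conjTranspose_kronecker,
        ← Matrix.mul_kronecker_mul, ← Matrix.mul_kronecker_mul]
      simp)
    (WithLp.toLp 2 ξ)
  have hξ : ‖(WithLp.toLp 2 ξ : EuclideanSpace ℂ (Fin n × Fin m))‖ ^ 2 = ∑ q, ‖ξ q‖ ^ 2 := by
    rw [EuclideanSpace.norm_sq_eq]
  rw [mul_pow, hξ] at h
  refine le_trans (le_of_eq ?_) h
  refine sum_congr rfl fun k _ => ?_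
  rw [EuclideanSpace.norm_sq_eq]
  refine sum_congr rfl fun P _ => ?_
  congr 2
  rw [WithLp.ofLp_sum, Finset.sum_apply]
  refine sum_congr rfl fun i _ => ?_
  rw [PiLp.smul_apply, smul_eq_mul]
  congr 1
  simp only [hU, hV]
  rw [toE_mul_apply, ← Matrix.mul_kronecker_mul, mul_one, one_mul, toE_apply]
  refine sum_congr rfl fun q _ => ?_
  rw [Matrix.kroneckerMap_apply]

end Kron

end

end Pool.Agent.Y282.Jcb
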