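import Mathlib

/-!
# The Fourier analytic core of the counterexample to Blecher's question

For an odd prime `p`, `χ` a nontrivial additive character of `ZMod p` and families `U i`, `V j` of
operators on a Hilbert space such that each `U i` and its adjoint commute with all `V j`,
`∑ₖ ‖∑ᵢ χ(i²(k-i)) U i V (k-i) ξ‖² ≤ (p² + p²√p) α² β² ‖ξ‖²` when `‖U i‖ ≤ α`, `‖V j‖ ≤ β`.
-/

set_option autoImplicit false

namespace Pool.Agent.Y282.Jcb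

open scoped ComplexConjugate InnerProductSpace
open Finset

noncomputable section

/-- The standard additive character of `ZMod p`. -/
def chi (p : ℕ) [NeZero p] : AddChar (ZMod p) ℂ := ZMod.stdAddChar

section

variable {p : ℕ} [Fact p.Prime]

lemma norm_chi (x : ZMod p) : ‖chi p x‖ = 1 := AddChar.norm_apply _ _

lemma conj_chi (x : ZMod p) : conj (chi p x) = chi p (-x) := (AddChar.map_neg_eq_conj _ _).symm

lemma chi_add (x y : ZMod p) : chi p (x + y) = chi p x * chi p y := AddChar.map_add_eq_mul _ _ _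

lemma chi_zero : chi p (0 : ZMod p) = 1 := AddChar.map_zero_eq_one _

lemma sum_chi (b : ZMod p) : ∑ x, chi p (x * b) = if b = 0 then (p : ℂ) else 0 := by
  have h := AddChar.sum_mulShift (ψ := chi p) b (ZMod.isPrimitive_stdAddChar p)
  rw [h, ZMod.card]
  split_ifs <;> simp

variable {K : Type*} [NormedAddCommGroup K] [InnerProductSpace ℂ K]

lemma nsq (x : K) : ((‖x‖ : ℝ) : ℂ) ^ 2 = ⟪x, x⟫_ℂ := by
  have := inner_self_eq_norm_sq_to_K (𝕜 := ℂ) x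
  rw [this]
  rfl

lemma inner_sum_sum {ι κ : Type*} (s : Finset ι) (t : Finset κ) (c : ι → ℂ) (d : κ → ℂ)
    (u : ι → K) (v : κ → K) :
    ⟪∑ i ∈ s, c i • u i, ∑ j ∈ t, d j • v j⟫_ℂ
      = ∑ i ∈ s, ∑ j ∈ t, conj (c i) * d j * ⟪u i, v j⟫_ℂ := by
  rw [sum_inner]
  refine sum_congr rfl fun i _ => ?_
  rw [inner_sum]
  refine sum_congr rfl fun j _ => ?_
  rw [inner_smul_left, inner_smul_right]
  ring

/-- Parseval for vector-valued functions on `ZMod p`. -/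
lemma parseval (c : ZMod p) (hc : c ≠ 0) (s : ZMod p → K) :
    ∑ j, ‖∑ i, chi p (c * i * j) • s i‖ ^ 2 = p * ∑ i, ‖s i‖ ^ 2 := by
  have key : (((∑ j, ‖∑ i, chi p (c * i * j) • s i‖ ^ 2 : ℝ)) : ℂ)
      = ((p * ∑ i, ‖s i‖ ^ 2 : ℝ) : ℂ) := by
    push_cast
    have h1 : ∀ j : ZMod p, ((‖∑ i, chi p (c * i * j) • s i‖ : ℂ)) ^ 2
        = ∑ i, ∑ i', chi p (j * (c * (i' - i))) * ⟪s i, s i'⟫_ℂ := by
      intro j
      rw [nsq, inner_sum_sum]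
      refine sum_congr rfl fun i _ => sum_congr rfl fun i' _ => ?_
      rw [conj_chi, ← chi_add]
      congr 2
      ring
    simp_rw [h1]
    rw [sum_comm, mul_sum]
    refine sum_congr rfl fun i _ => ?_
    rw [sum_comm]
    simp_rw [← sum_mul, sum_chi]
    rw [sum_eq_single i]
    · rw [sub_self, mul_zero, if_pos rfl]
      rw [nsq]
    · intro b _ hb
      rw [if_neg, zero_mul]
      exact mul_ne_zero hc (sub_ne_zero.2 hb)
    · intro h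
      exact absurd (mem_univ _) h
  exact_mod_cast key

lemma bilin_bound (c : ZMod p) (hc : c ≠ 0) (s t : ZMod p → K) (S T : ℝ)
    (hS0 : 0 ≤ S) (hT0 : 0 ≤ T)
    (hS : ∀ i, ‖s i‖ ≤ S) (hT : ∀ j, ‖t j‖ ≤ T) :
    ‖∑ i, ∑ j, chi p (c * i * j) * ⟪s i, t j⟫_ℂ‖ ≤ p * √p * (S * T) := by
  have hp0 : (0 : ℝ) ≤ p := Nat.cast_nonneg p
  have h1 : ∑ i, ∑ j, chi p (c * i * j) * ⟪s i, t j⟫_ℂ
      = ∑ j, ⟪∑ i, chi p ((-c) * i * j) • s i, t j⟫_ℂ := by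
    rw [sum_comm]
    refine sum_congr rfl fun j _ => ?_
    rw [sum_inner]
    refine sum_congr rfl fun i _ => ?_
    rw [inner_smul_left, conj_chi]
    congr 2
    ring
  rw [h1]
  have h2 : ‖∑ j, ⟪∑ i, chi p ((-c) * i * j) • s i, t j⟫_ℂ‖
      ≤ ∑ j, ‖∑ i, chi p ((-c) * i * j) • s i‖ * ‖t j‖ := by
    refine (norm_sum_le _ _).trans (sum_le_sum fun j _ => norm_inner_le_norm _ _)
  have h3 : ∑ j, ‖∑ i, chi p ((-c) * i * j) • s i‖ * ‖t j‖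
      ≤ √(∑ j, ‖∑ i, chi p ((-c) * i * j) • s i‖ ^ 2) * √(∑ j, ‖t j‖ ^ 2) :=
    Real.sum_mul_le_sqrt_mul_sqrt _ _ _
  rw [parseval (-c) (neg_ne_zero.2 hc)] at h3
  have h4 : ∑ i, ‖s i‖ ^ 2 ≤ p * S ^ 2 := by
    calc ∑ i, ‖s i‖ ^ 2 ≤ ∑ _i : ZMod p, S ^ 2 :=
          sum_le_sum fun i _ => pow_le_pow_left₀ (norm_nonneg _) (hS i) 2
      _ = p * S ^ 2 := by
          rw [sum_const, card_univ, ZMod.card, nsmul_eq_mul]
  have h5 : ∑ j, ‖t j‖ ^ 2 ≤ p * T ^ 2 := by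
    calc ∑ j, ‖t j‖ ^ 2 ≤ ∑ _j : ZMod p, T ^ 2 :=
          sum_le_sum fun i _ => pow_le_pow_left₀ (norm_nonneg _) (hT i) 2
      _ = p * T ^ 2 := by
          rw [sum_const, card_univ, ZMod.card, nsmul_eq_mul]
  have h6 : √(p * ∑ i, ‖s i‖ ^ 2) ≤ p * S := by
    rw [← Real.sqrt_sq (mul_nonneg hp0 hS0)]
    apply Real.sqrt_le_sqrt
    calc (p : ℝ) * ∑ i, ‖s i‖ ^ 2 ≤ p * (p * S ^ 2) := mul_le_mul_of_nonneg_left h4 hp0
      _ = (p * S) ^ 2 := by ring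
  have h7 : √(∑ j, ‖t j‖ ^ 2) ≤ √p * T := by
    calc √(∑ j, ‖t j‖ ^ 2) ≤ √(p * T ^ 2) := Real.sqrt_le_sqrt h5
      _ = √p * T := by rw [Real.sqrt_mul hp0, Real.sqrt_sq hT0]
  calc _ ≤ _ := h2
    _ ≤ _ := h3
    _ ≤ (p * S) * (√p * T) := mul_le_mul h6 h7 (Real.sqrt_nonneg _) (mul_nonneg hp0 hS0)
    _ = p * √p * (S * T) := by ring

variable [CompleteSpace K]

open ContinuousLinearMap in
/-- The core estimate. -/
theorem core (hp2 : p ≠ 2) (U V : ZMod p → K →L[ℂ] K) (α β : ℝ) (hα : 0 ≤ α) (hβ : 0 ≤ β)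
    (hU : ∀ i, ‖U i‖ ≤ α) (hV : ∀ j, ‖V j‖ ≤ β)
    (hUV : ∀ i j x, U i (V j x) = V j (U i x))
    (hU'V : ∀ i j x, adjoint (U i) (V j x) = V j (adjoint (U i) x)) (ξ : K) :
    ∑ k, ‖∑ i, chi p (i ^ 2 * (k - i)) • U i (V (k - i) ξ)‖ ^ 2
      ≤ ((p : ℝ) ^ 2 + p ^ 2 * √p) * (α * β * ‖ξ‖) ^ 2 := by
  have hp0 : (0 : ℝ) ≤ p := Nat.cast_nonneg p
  have two_ne : (2 : ZMod p) ≠ 0 := by
    intro h
    have : ((2 : ℕ) : ZMod p) = 0 := by exact_mod_cast h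
    rw [ZMod.natCast_eq_zero_iff] at this
    exact hp2 ((Nat.prime_dvd_prime_iff_eq (Fact.out : p.Prime) Nat.prime_two).1 this)
  set s : ZMod p → ZMod p → K := fun d i =>
    conj (chi p (-(i ^ 2 * d) - 2 * i * d ^ 2 - d ^ 3)) • adjoint (U (i + d)) (U i ξ) with hs
  set t : ZMod p → ZMod p → K := fun d j =>
    chi p (d ^ 2 * j) • adjoint (V j) (V (j - d) ξ) with ht
  have hsn : ∀ d i, ‖s d i‖ ≤ α ^ 2 * ‖ξ‖ := by
    intro d i
    simp only [hs]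
    rw [norm_smul, RCLike.norm_conj, norm_chi, one_mul]
    calc ‖adjoint (U (i + d)) (U i ξ)‖ ≤ ‖adjoint (U (i + d))‖ * ‖U i ξ‖ := le_opNorm _ _
      _ ≤ α * (α * ‖ξ‖) := by
          refine mul_le_mul ?_ ?_ (norm_nonneg _) hα
          · rw [LinearIsometryEquiv.norm_map]
            exact hU _
          · exact (le_opNorm _ _).trans (mul_le_mul_of_nonneg_right (hU i) (norm_nonneg _))
      _ = _ := by ring
  have htn : ∀ d j, ‖t d j‖ ≤ β ^ 2 * ‖ξ‖ := by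
    intro d j
    simp only [ht]
    rw [norm_smul, norm_chi, one_mul]
    calc ‖adjoint (V j) (V (j - d) ξ)‖ ≤ ‖adjoint (V j)‖ * ‖V (j - d) ξ‖ := le_opNorm _ _
      _ ≤ β * (β * ‖ξ‖) := by
          refine mul_le_mul ?_ ?_ (norm_nonneg _) hβ
          · rw [LinearIsometryEquiv.norm_map]
            exact hV _
          · exact (le_opNorm _ _).trans (mul_le_mul_of_nonneg_right (hV _) (norm_nonneg _))
      _ = _ := by ring
  have key : (((∑ k, ‖∑ i, chi p (i ^ 2 * (k - i)) • U i (V (k - i) ξ)‖ ^ 2 : ℝ)) : ℂ)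
      = ∑ d, ∑ i, ∑ j, chi p (2 * d * i * j) * ⟪s d i, t d j⟫_ℂ := by
    push_cast
    have h1 : ∀ k : ZMod p, ((‖∑ i, chi p (i ^ 2 * (k - i)) • U i (V (k - i) ξ)‖ : ℂ)) ^ 2
        = ∑ i, ∑ i', conj (chi p (i ^ 2 * (k - i))) * chi p (i' ^ 2 * (k - i'))
            * ⟪U i (V (k - i) ξ), U i' (V (k - i') ξ)⟫_ℂ := by
      intro k
      rw [nsq, inner_sum_sum]
    simp_rw [h1]
    rw [sum_comm]
    have h2 : ∀ i : ZMod p, ∑ k, ∑ i', conj (chi p (i ^ 2 * (k - i))) * chi p (i' ^ 2 * (k - i'))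
            * ⟪U i (V (k - i) ξ), U i' (V (k - i') ξ)⟫_ℂ
        = ∑ j, ∑ d, chi p (2 * d * i * j) * ⟪s d i, t d j⟫_ℂ := by
      intro i
      rw [← Equiv.sum_comp (Equiv.addLeft i)]
      refine sum_congr rfl fun j _ => ?_
      rw [← Equiv.sum_comp (Equiv.addLeft i)]
      refine sum_congr rfl fun d _ => ?_
      simp only [Equiv.coe_addLeft, add_sub_cancel_left, hs, ht]
      rw [inner_smul_left, inner_smul_right, RingHomCompTriple.comp_apply, RingHom.id_apply]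
      have e1 : i + j - (i + d) = j - d := by ring
      rw [e1]
      have e2 : ⟪U i (V j ξ), U (i + d) (V (j - d) ξ)⟫_ℂ
          = ⟪adjoint (U (i + d)) (U i ξ), adjoint (V j) (V (j - d) ξ)⟫_ℂ := by
        rw [adjoint_inner_right, ← hU'V, ← hUV, adjoint_inner_left]
      rw [e2, ← mul_assoc, ← mul_assoc]
      congr 1
      rw [conj_chi, ← chi_add, ← chi_add, ← chi_add]
      congr 1
      ring
    calc _ = ∑ i, ∑ j, ∑ d, chi p (2 * d * i * j) * ⟪s d i, t d j⟫_ℂ :=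
          sum_congr rfl fun i _ => h2 i
      _ = ∑ i, ∑ d, ∑ j, chi p (2 * d * i * j) * ⟪s d i, t d j⟫_ℂ :=
          sum_congr rfl fun i _ => sum_comm
      _ = _ := sum_comm
  have hD0 : ‖∑ i, ∑ j, chi p (2 * 0 * i * j) * ⟪s 0 i, t 0 j⟫_ℂ‖
      ≤ (p : ℝ) ^ 2 * (α ^ 2 * ‖ξ‖ * (β ^ 2 * ‖ξ‖)) := by
    refine (norm_sum_le _ _).trans ?_
    have : ∀ i : ZMod p, ‖∑ j, chi p (2 * 0 * i * j) * ⟪s 0 i, t 0 j⟫_ℂ‖
        ≤ p * (α ^ 2 * ‖ξ‖ * (β ^ 2 * ‖ξ‖)) := by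
      intro i
      refine (norm_sum_le _ _).trans ?_
      calc ∑ j, ‖chi p (2 * 0 * i * j) * ⟪s 0 i, t 0 j⟫_ℂ‖
          ≤ ∑ _j : ZMod p, (α ^ 2 * ‖ξ‖ * (β ^ 2 * ‖ξ‖)) := by
            refine sum_le_sum fun j _ => ?_
            rw [norm_mul, norm_chi, one_mul]
            exact (norm_inner_le_norm _ _).trans
              (mul_le_mul (hsn 0 i) (htn 0 j) (norm_nonneg _) (by positivity))
        _ = _ := by rw [sum_const, card_univ, ZMod.card, nsmul_eq_mul]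
    calc ∑ i, ‖∑ j, chi p (2 * 0 * i * j) * ⟪s 0 i, t 0 j⟫_ℂ‖
        ≤ ∑ _i : ZMod p, (p * (α ^ 2 * ‖ξ‖ * (β ^ 2 * ‖ξ‖))) := sum_le_sum fun i _ => this i
      _ = _ := by rw [sum_const, card_univ, ZMod.card, nsmul_eq_mul]; ring
  have hD : ∀ d : ZMod p, d ≠ 0 → ‖∑ i, ∑ j, chi p (2 * d * i * j) * ⟪s d i, t d j⟫_ℂ‖
      ≤ p * √p * (α ^ 2 * ‖ξ‖ * (β ^ 2 * ‖ξ‖)) := by
    intro d hd
    exact bilin_bound (2 * d) (mul_ne_zero two_ne hd) (s d) (t d) _ _ (by positivity)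
      (by positivity) (hsn d) (htn d)
  have hfin : ‖(((∑ k, ‖∑ i, chi p (i ^ 2 * (k - i)) • U i (V (k - i) ξ)‖ ^ 2 : ℝ)) : ℂ)‖
      ≤ ((p : ℝ) ^ 2 + p ^ 2 * √p) * (α * β * ‖ξ‖) ^ 2 := by
    rw [key]
    rw [← add_sum_erase univ _ (mem_univ (0 : ZMod p))]
    refine (norm_add_le _ _).trans ?_
    have h8 : ‖∑ d ∈ univ.erase (0 : ZMod p), ∑ i, ∑ j, chi p (2 * d * i * j) * ⟪s d i, t d j⟫_ℂ‖
        ≤ p * (p * √p * (α ^ 2 * ‖ξ‖ * (β ^ 2 * ‖ξ‖))) := by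
      refine (norm_sum_le _ _).trans ?_
      calc ∑ d ∈ univ.erase (0 : ZMod p), ‖∑ i, ∑ j, chi p (2 * d * i * j) * ⟪s d i, t d j⟫_ℂ‖
          ≤ ∑ _d ∈ univ.erase (0 : ZMod p), (p * √p * (α ^ 2 * ‖ξ‖ * (β ^ 2 * ‖ξ‖))) :=
            sum_le_sum fun d hd => hD d (ne_of_mem_erase hd)
        _ ≤ ∑ _d : ZMod p, (p * √p * (α ^ 2 * ‖ξ‖ * (β ^ 2 * ‖ξ‖))) :=
            sum_le_sum_of_subset_of_nonneg (erase_subset _ _) fun _ _ _ => by positivity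
        _ = _ := by rw [sum_const, card_univ, ZMod.card, nsmul_eq_mul]
    calc _ ≤ (p : ℝ) ^ 2 * (α ^ 2 * ‖ξ‖ * (β ^ 2 * ‖ξ‖))
          + p * (p * √p * (α ^ 2 * ‖ξ‖ * (β ^ 2 * ‖ξ‖))) := add_le_add hD0 h8
      _ = _ := by ring
  rw [Complex.norm_real, Real.norm_eq_abs] at hfin
  exact (le_abs_self _).trans hfin

end

end

end Pool.Agent.Y282.Jcb
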