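import Pool.Agent.Y282.JcbBlock

/-!
# The bilinear map: a weighted sum of blocks
-/

set_option autoImplicit false

namespace Pool.Agent.Y282.Jcb

open scoped ComplexConjugate InnerProductSpace BoundedContinuousFunction CStarMatrix
open Finset

noncomputable section

/-- Bounded functions on the discrete space `ℕ × ℕ`. -/
abbrev Alg := (ℕ × ℕ) →ᵇ ℂ

variable {H : Type*} [NormedAddCommGroup H] [InnerProductSpace ℂ H]

section Block

variable {p : ℕ} [Fact p.Prime]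

lemma onorm {e : ℕ → H} (he : Orthonormal ℂ e) (c : ZMod p → ℂ) :
    ‖∑ k, c k • e k.val‖ ^ 2 = ∑ k, ‖c k‖ ^ 2 := by
  have h := (he.comp (fun k : ZMod p => k.val) (ZMod.val_injective p)).inner_sum c c univ
  have h2 : ((‖∑ k, c k • e k.val‖ : ℝ) : ℂ) ^ 2 = ∑ k, ((‖c k‖ : ℝ) : ℂ) ^ 2 := by
    rw [nsq]
    refine h.trans (sum_congr rfl fun k _ => ?_)
    exact Complex.conj_mul' _
  exact_mod_cast h2

/-- The value of the block. -/
def blkFun (e : ℕ → H) (N : ℕ) (p : ℕ) [Fact p.Prime] (a b : Alg) : H :=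
  ∑ k : ZMod p, (∑ i : ZMod p, chi p (i ^ 2 * (k - i)) * (a (N, i.val) * b (N, (k - i).val)))
    • e k.val

lemma blkFun_sum (e : ℕ → H) (N : ℕ) {ι : Type*} [Fintype ι] (ξ : ι → ℂ) (a b : ι → Alg) :
    ∑ q, ξ q • blkFun e N p (a q) (b q)
      = ∑ k : ZMod p, (∑ i : ZMod p, chi p (i ^ 2 * (k - i)) *
          ∑ q, (a q) (N, i.val) * (b q) (N, (k - i).val) * ξ q) • e k.val := by
  simp only [blkFun, smul_sum]
  rw [sum_comm]
  refine sum_congr rfl fun k _ => ?_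
  simp only [smul_smul]
  rw [← sum_smul]
  congr 1
  simp only [mul_sum]
  rw [sum_comm]
  refine sum_congr rfl fun i _ => sum_congr rfl fun q _ => ?_
  ring

variable [PartialOrder Alg] [StarOrderedRing Alg]

theorem blk_bound (hp2 : p ≠ 2) {e : ℕ → H} (he : Orthonormal ℂ e) (N : ℕ) {n m : ℕ}
    (a : CStarMatrix (Fin n) (Fin n) Alg) (b : CStarMatrix (Fin m) (Fin m) Alg)
    (ξ : Fin n × Fin m → ℂ) :
    ∑ P : Fin n × Fin m, ‖∑ q : Fin n × Fin m,
        ξ q • blkFun e N p (a P.1 q.1) (b P.2 q.2)‖ ^ 2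
      ≤ ((p : ℝ) ^ 2 + p ^ 2 * √p) * ((‖a‖ * ‖b‖) ^ 2 * ∑ q, ‖ξ q‖ ^ 2) := by
  have h := kron_core (n := n) (m := m) hp2 (fun i P q => (a P q) (N, i.val))
    (fun j P q => (b P q) (N, j.val)) ‖a‖ ‖b‖ (norm_nonneg _) (norm_nonneg _)
    (fun i η => eval_matrix_le a _ η) (fun j η => eval_matrix_le b _ η) ξ
  refine le_trans (le_of_eq ?_) h
  rw [sum_comm]
  refine sum_congr rfl fun P _ => ?_
  rw [blkFun_sum, onorm he]

lemma norm_one_matrix (a : Alg) :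
    ‖(CStarMatrix.ofMatrix (fun _ _ : Fin 1 => a) : CStarMatrix (Fin 1) (Fin 1) Alg)‖ ≤ ‖a‖ := by
  refine norm_le_of_vecMul _ _ (norm_nonneg _) fun x η => ?_
  simp only [univ_unique, Fin.default_eq_zero, Fin.isValue, sum_singleton]
  change ‖η 0 * a x‖ ^ 2 ≤ _
  rw [norm_mul, mul_pow, mul_comm]
  exact mul_le_mul_of_nonneg_right
    (pow_le_pow_left₀ (norm_nonneg _) (a.norm_coe_le_norm x) 2) (sq_nonneg _)

theorem blk_norm (hp2 : p ≠ 2) {e : ℕ → H} (he : Orthonormal ℂ e) (N : ℕ) (a b : Alg) :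
    ‖blkFun e N p a b‖ ^ 2 ≤ ((p : ℝ) ^ 2 + p ^ 2 * √p) * (‖a‖ * ‖b‖) ^ 2 := by
  have h := blk_bound hp2 he N
    (CStarMatrix.ofMatrix (fun _ _ : Fin 1 => a) : CStarMatrix (Fin 1) (Fin 1) Alg)
    (CStarMatrix.ofMatrix (fun _ _ : Fin 1 => b) : CStarMatrix (Fin 1) (Fin 1) Alg) (fun _ => 1)
  rw [Fintype.sum_prod_type, Fintype.sum_prod_type] at h
  simp only [univ_unique, Fin.default_eq_zero, Fin.isValue, sum_singleton, norm_one, one_pow,
    mul_one, one_smul] at h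
  rw [Fintype.sum_prod_type] at h
  simp only [univ_unique, Fin.default_eq_zero, Fin.isValue, sum_singleton] at h
  refine le_trans h ?_
  refine mul_le_mul_of_nonneg_left ?_ (by positivity)
  refine pow_le_pow_left₀ (by positivity) ?_ 2
  exact mul_le_mul (norm_one_matrix a) (norm_one_matrix b) (norm_nonneg _) (norm_nonneg _)

end Block

section Bilin

variable {p : ℕ} [Fact p.Prime]

lemma blk_add_left (e : ℕ → H) (N : ℕ) (a a' b : Alg) :
    blkFun e N p (a + a') b = blkFun e N p a b + blkFun e N p a' b := by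
  simp only [blkFun, BoundedContinuousFunction.add_apply, add_mul, mul_add, sum_add_distrib,
    add_smul]

lemma blk_add_right (e : ℕ → H) (N : ℕ) (a b b' : Alg) :
    blkFun e N p a (b + b') = blkFun e N p a b + blkFun e N p a b' := by
  simp only [blkFun, BoundedContinuousFunction.add_apply, mul_add, sum_add_distrib, add_smul]

lemma blk_smul_left (e : ℕ → H) (N : ℕ) (c : ℂ) (a b : Alg) :
    blkFun e N p (c • a) b = c • blkFun e N p a b := by
  simp only [blkFun, BoundedContinuousFunction.smul_apply, smul_sum, smul_smul, smul_eq_mul]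
  refine sum_congr rfl fun k _ => ?_
  congr 1
  rw [mul_sum]
  refine sum_congr rfl fun i _ => ?_
  ring

lemma blk_smul_right (e : ℕ → H) (N : ℕ) (c : ℂ) (a b : Alg) :
    blkFun e N p a (c • b) = c • blkFun e N p a b := by
  simp only [blkFun, BoundedContinuousFunction.smul_apply, smul_sum, smul_smul, smul_eq_mul]
  refine sum_congr rfl fun k _ => ?_
  congr 1
  rw [mul_sum]
  refine sum_congr rfl fun i _ => ?_
  ring

end Bilin

/-- A rapidly growing sequence of odd primes. -/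
def pr (N : ℕ) : ℕ := Classical.choose (Nat.exists_infinite_primes (256 ^ N + 3))

lemma pr_ge (N : ℕ) : 256 ^ N + 3 ≤ pr N :=
  (Classical.choose_spec (Nat.exists_infinite_primes (256 ^ N + 3))).1

instance pr_prime (N : ℕ) : Fact (pr N).Prime :=
  ⟨(Classical.choose_spec (Nat.exists_infinite_primes (256 ^ N + 3))).2⟩

lemma pr_ne (N : ℕ) : pr N ≠ 2 := by
  have := pr_ge N
  have h2 : 0 < 256 ^ N := by positivity
  omega

/-- The weights. -/
def wt (N : ℕ) : ℝ := 2 ^ N / (pr N * √(pr N))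

lemma sqrt_pr_ge (N : ℕ) : (16 : ℝ) ^ N ≤ √(pr N) := by
  rw [show (16 : ℝ) ^ N = √(256 ^ N) by
    rw [show (256 : ℝ) ^ N = (16 ^ N) ^ 2 by rw [← pow_mul, mul_comm, pow_mul]; norm_num]
    rw [Real.sqrt_sq (by positivity)]]
  apply Real.sqrt_le_sqrt
  have := pr_ge N
  have h2 : ((256 ^ N + 3 : ℕ) : ℝ) ≤ (pr N : ℝ) := by exact_mod_cast this
  push_cast at h2
  linarith

lemma wt_bound (N : ℕ) :
    wt N ^ 2 * ((pr N : ℝ) ^ 2 + (pr N) ^ 2 * √(pr N)) ≤ (2 * (1 / 2) ^ N) ^ 2 := by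
  set s := √(pr N : ℝ) with hs
  have hs16 : (16 : ℝ) ^ N ≤ s := sqrt_pr_ge N
  have h1 : (1 : ℝ) ≤ s := le_trans (one_le_pow₀ (by norm_num)) hs16
  have hs0 : 0 < s := by linarith
  have hp : (pr N : ℝ) = s ^ 2 := by rw [hs, Real.sq_sqrt (Nat.cast_nonneg _)]
  have hw : wt N = 2 ^ N / (s ^ 2 * s) := by
    rw [wt, ← hs, ← hp]
  rw [hw, hp]
  have h2 : (2 ^ N / (s ^ 2 * s)) ^ 2 * ((s ^ 2) ^ 2 + (s ^ 2) ^ 2 * s) = 4 ^ N * ((1 + s) / s ^ 2) := by
    have h4 : (4 : ℝ) ^ N = (2 ^ N) ^ 2 := by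
      rw [← pow_mul, mul_comm, pow_mul]; norm_num
    rw [h4]
    field_simp
  rw [h2]
  have h3 : (1 + s) / s ^ 2 ≤ 2 / s := by
    rw [div_le_div_iff₀ (by positivity) hs0]
    nlinarith
  have h4 : 2 / s ≤ 2 / 16 ^ N := div_le_div_of_nonneg_left (by norm_num) (by positivity) hs16
  calc (4 : ℝ) ^ N * ((1 + s) / s ^ 2) ≤ 4 ^ N * (2 / 16 ^ N) :=
        mul_le_mul_of_nonneg_left (h3.trans h4) (by positivity)
    _ = 2 * (1 / 4) ^ N := by
        rw [show (16 : ℝ) ^ N = 4 ^ N * 4 ^ N by rw [← mul_pow]; norm_num, one_div, inv_pow]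
        field_simp
    _ ≤ 4 * (1 / 4) ^ N := by
        have : (0 : ℝ) ≤ (1 / 4) ^ N := by positivity
        linarith
    _ = (2 * (1 / 2) ^ N) ^ 2 := by
        rw [mul_pow, ← pow_mul, mul_comm N 2, pow_mul]
        norm_num

/-- The weighted block. -/
def W (e : ℕ → H) (N : ℕ) (a b : Alg) : H := ((wt N : ℝ) : ℂ) • blkFun e N (pr N) a b

section Bound

variable [PartialOrder Alg] [StarOrderedRing Alg]

theorem W_bound {e : ℕ → H} (he : Orthonormal ℂ e) (N : ℕ) {n m : ℕ}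
    (a : CStarMatrix (Fin n) (Fin n) Alg) (b : CStarMatrix (Fin m) (Fin m) Alg)
    (ξ : Fin n × Fin m → ℂ) :
    ∑ P : Fin n × Fin m, ‖∑ q : Fin n × Fin m, ξ q • W e N (a P.1 q.1) (b P.2 q.2)‖ ^ 2
      ≤ (2 * (1 / 2) ^ N) ^ 2 * ((‖a‖ * ‖b‖) ^ 2 * ∑ q, ‖ξ q‖ ^ 2) := by
  have h1 : ∀ P : Fin n × Fin m, ‖∑ q : Fin n × Fin m, ξ q • W e N (a P.1 q.1) (b P.2 q.2)‖ ^ 2
      = wt N ^ 2 * ‖∑ q : Fin n × Fin m, ξ q • blkFun e N (pr N) (a P.1 q.1) (b P.2 q.2)‖ ^ 2 := by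
    intro P
    have : ∑ q : Fin n × Fin m, ξ q • W e N (a P.1 q.1) (b P.2 q.2)
        = ((wt N : ℝ) : ℂ) •
          ∑ q : Fin n × Fin m, ξ q • blkFun e N (pr N) (a P.1 q.1) (b P.2 q.2) := by
      rw [smul_sum]
      refine sum_congr rfl fun q _ => ?_
      rw [W, smul_comm]
    rw [this, norm_smul, mul_pow, Complex.norm_real, Real.norm_eq_abs, sq_abs]
  simp_rw [h1]
  rw [← mul_sum]
  calc _ ≤ wt N ^ 2 * (((pr N : ℝ) ^ 2 + (pr N) ^ 2 * √(pr N))
        * ((‖a‖ * ‖b‖) ^ 2 * ∑ q, ‖ξ q‖ ^ 2)) :=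
        mul_le_mul_of_nonneg_left (blk_bound (pr_ne N) he N a b ξ) (sq_nonneg _)
    _ = (wt N ^ 2 * ((pr N : ℝ) ^ 2 + (pr N) ^ 2 * √(pr N)))
        * ((‖a‖ * ‖b‖) ^ 2 * ∑ q, ‖ξ q‖ ^ 2) := by ring
    _ ≤ _ := mul_le_mul_of_nonneg_right (wt_bound N)
        (mul_nonneg (sq_nonneg _) (sum_nonneg fun _ _ => sq_nonneg _))

theorem W_norm {e : ℕ → H} (he : Orthonormal ℂ e) (N : ℕ) (a b : Alg) :
    ‖W e N a b‖ ≤ (1 / 2) ^ N * (2 * (‖a‖ * ‖b‖)) := by
  rw [← sq_le_sq₀ (norm_nonneg _) (by positivity), W, norm_smul, mul_pow, Complex.norm_real,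
    Real.norm_eq_abs, sq_abs]
  calc _ ≤ wt N ^ 2 * (((pr N : ℝ) ^ 2 + (pr N) ^ 2 * √(pr N)) * (‖a‖ * ‖b‖) ^ 2) :=
        mul_le_mul_of_nonneg_left (blk_norm (pr_ne N) he N a b) (sq_nonneg _)
    _ = (wt N ^ 2 * ((pr N : ℝ) ^ 2 + (pr N) ^ 2 * √(pr N))) * (‖a‖ * ‖b‖) ^ 2 := by ring
    _ ≤ (2 * (1 / 2) ^ N) ^ 2 * (‖a‖ * ‖b‖) ^ 2 :=
        mul_le_mul_of_nonneg_right (wt_bound N) (sq_nonneg _)
    _ = _ := by ring

variable [CompleteSpace H]

theorem W_summable {e : ℕ → H} (he : Orthonormal ℂ e) (a b : Alg) :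
    Summable fun N => W e N a b :=
  Summable.of_norm_bounded ((summable_geometric_two).mul_right _) fun N => W_norm he N a b

/-- The vector valued bilinear map. -/
def hMap (e : ℕ → H) (he : Orthonormal ℂ e) : Alg →ₗ[ℂ] Alg →ₗ[ℂ] H :=
  LinearMap.mk₂ ℂ (fun a b => ∑' N, W e N a b)
    (fun a a' b => by
      rw [← (W_summable he a b).tsum_add (W_summable he a' b)]
      refine tsum_congr fun N => ?_
      rw [W, W, W, blk_add_left, smul_add])
    (fun c a b => by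
      rw [← (W_summable he a b).tsum_const_smul c]
      refine tsum_congr fun N => ?_
      rw [W, W, blk_smul_left, smul_comm])
    (fun a b b' => by
      rw [← (W_summable he a b).tsum_add (W_summable he a b')]
      refine tsum_congr fun N => ?_
      rw [W, W, W, blk_add_right, smul_add])
    (fun c a b => by
      rw [← (W_summable he a b).tsum_const_smul c]
      refine tsum_congr fun N => ?_
      rw [W, W, blk_smul_right, smul_comm])

lemma hMap_apply (e : ℕ → H) (he : Orthonormal ℂ e) (a b : Alg) :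
    hMap e he a b = ∑' N, W e N a b := rfl

theorem hMap_bound {e : ℕ → H} (he : Orthonormal ℂ e) {n m : ℕ}
    (a : CStarMatrix (Fin n) (Fin n) Alg) (b : CStarMatrix (Fin m) (Fin m) Alg)
    (ξ : Fin n × Fin m → ℂ) :
    ∑ P : Fin n × Fin m, ‖∑ q : Fin n × Fin m, ξ q • hMap e he (a P.1 q.1) (b P.2 q.2)‖ ^ 2
      ≤ (4 * ‖a‖ * ‖b‖) ^ 2 * ∑ q, ‖ξ q‖ ^ 2 := by
  set M : ℝ := 2 * (‖a‖ * ‖b‖ * √(∑ q, ‖ξ q‖ ^ 2)) with hM
  have hξ0 : 0 ≤ ∑ q, ‖ξ q‖ ^ 2 := sum_nonneg fun _ _ => sq_nonneg _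
  have hM0 : 0 ≤ M := by positivity
  let y : ℕ → PiLp 2 (fun _ : Fin n × Fin m => H) := fun N =>
    WithLp.toLp 2 (fun P => ∑ q : Fin n × Fin m, ξ q • W e N (a P.1 q.1) (b P.2 q.2))
  let z : PiLp 2 (fun _ : Fin n × Fin m => H) :=
    WithLp.toLp 2 (fun P => ∑ q : Fin n × Fin m, ξ q • hMap e he (a P.1 q.1) (b P.2 q.2))
  have hy : ∀ N, ‖y N‖ ≤ (1 / 2) ^ N * M := by
    intro N
    rw [← sq_le_sq₀ (norm_nonneg _) (by positivity), PiLp.norm_sq_eq_of_L2]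
    refine (W_bound he N a b ξ).trans (le_of_eq ?_)
    rw [hM, mul_pow, mul_pow, mul_pow, mul_pow, mul_pow, Real.sq_sqrt hξ0]
    ring
  have hsum : HasSum y z := by
    have h1 : HasSum (fun N => (fun P : Fin n × Fin m =>
        ∑ q : Fin n × Fin m, ξ q • W e N (a P.1 q.1) (b P.2 q.2)))
        (fun P => ∑ q : Fin n × Fin m, ξ q • hMap e he (a P.1 q.1) (b P.2 q.2)) := by
      rw [Pi.hasSum]
      intro P
      refine hasSum_sum fun q _ => ?_
      exact (W_summable he _ _).hasSum.const_smul (ξ q)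
    exact (PiLp.continuousLinearEquiv 2 ℂ (fun _ : Fin n × Fin m => H)).symm.hasSum'.2 h1
  have hz : ‖z‖ ≤ 2 * M :=
    hsum.norm_le_of_bounded (hasSum_geometric_two.mul_right M) hy
  have hz2 : ‖z‖ ^ 2 ≤ (2 * M) ^ 2 := pow_le_pow_left₀ (norm_nonneg _) hz 2
  rw [PiLp.norm_sq_eq_of_L2] at hz2
  refine hz2.trans (le_of_eq ?_)
  rw [hM, mul_pow, mul_pow, mul_pow, mul_pow, mul_pow, mul_pow, Real.sq_sqrt hξ0]
  ring

end Bound

end

end Pool.Agent.Y282.Jcb
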