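import Mathlib

set_option autoImplicit false

open Topology

namespace Pool.Agent.Y282.PA

/-! ### Bounded operators on `ℓ¹` given by bounded families -/

section L1

variable {𝕜 : Type*} [RCLike 𝕜] {ι : Type*}

/-- `ℓ¹` over the index set `ι`. -/
abbrev L1 (𝕜 : Type*) [RCLike 𝕜] (ι : Type*) : Type _ := lp (fun _ : ι => 𝕜) 1

theorem summable_norm (a : L1 𝕜 ι) : Summable fun i => ‖a i‖ := by
  have := (lp.memℓp a).summable (by norm_num)
  simpa using this

theorem norm_eq (a : L1 𝕜 ι) : ‖a‖ = ∑' i, ‖a i‖ := by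
  have := lp.norm_eq_tsum_rpow (p := 1) (by norm_num) a
  simpa using this

variable {V : Type*} [NormedAddCommGroup V] [NormedSpace 𝕜 V] [CompleteSpace V]

theorem summable_smul (v : ι → V) (hv : ∀ i, ‖v i‖ ≤ 1) (a : L1 𝕜 ι) :
    Summable fun i => a i • v i := by
  apply Summable.of_norm_bounded (summable_norm a)
  intro i
  rw [norm_smul]
  exact mul_le_of_le_one_right (norm_nonneg _) (hv i)

/-- The operator `a ↦ ∑ aᵢ vᵢ`. -/
noncomputable def sumMap (v : ι → V) (hv : ∀ i, ‖v i‖ ≤ 1) : L1 𝕜 ι →L[𝕜] V :=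
  LinearMap.mkContinuous
    { toFun := fun a => ∑' i, a i • v i
      map_add' := by
        intro a b
        rw [← (summable_smul v hv a).tsum_add (summable_smul v hv b)]
        congr 1; funext i
        rw [lp.coeFn_add]
        exact add_smul _ _ _
      map_smul' := by
        intro c a
        rw [RingHom.id_apply, ← (summable_smul v hv a).tsum_const_smul]
        congr 1; funext i
        rw [lp.coeFn_smul]
        exact mul_smul _ _ _ } 1 (by
    intro a
    rw [one_mul, norm_eq]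
    refine (norm_tsum_le_tsum_norm ?_).trans ?_
    · refine Summable.of_norm_bounded (summable_norm a) ?_
      intro i
      rw [norm_norm, norm_smul]
      exact mul_le_of_le_one_right (norm_nonneg _) (hv i)
    · refine Summable.tsum_le_tsum ?_ ?_ (summable_norm a)
      · intro i
        rw [norm_smul]
        exact mul_le_of_le_one_right (norm_nonneg _) (hv i)
      · refine Summable.of_norm_bounded (summable_norm a) ?_
        intro i
        rw [norm_norm, norm_smul]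
        exact mul_le_of_le_one_right (norm_nonneg _) (hv i))

theorem sumMap_apply (v : ι → V) (hv : ∀ i, ‖v i‖ ≤ 1) (a : L1 𝕜 ι) :
    sumMap (𝕜 := 𝕜) v hv a = ∑' i, a i • v i := rfl

theorem norm_sumMap_le (v : ι → V) (hv : ∀ i, ‖v i‖ ≤ 1) :
    ‖sumMap (𝕜 := 𝕜) v hv‖ ≤ 1 :=
  LinearMap.mkContinuous_norm_le _ zero_le_one _

variable [DecidableEq ι]

/-- The unit vectors. -/
noncomputable def e (𝕜 : Type*) [RCLike 𝕜] (i : ι) : L1 𝕜 ι := lp.single 1 i (1 : 𝕜)

theorem e_apply (i j : ι) : (e 𝕜 i : L1 𝕜 ι) j = if j = i then 1 else 0 := by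
  unfold e
  rw [lp.single_apply]
  rw [Pi.single_apply]

theorem norm_e (i : ι) : ‖(e 𝕜 i : L1 𝕜 ι)‖ = 1 := by
  rw [norm_eq, tsum_eq_single i]
  · rw [e_apply]; simp
  · intro j hj
    rw [e_apply]; simp [hj]

theorem sumMap_e (v : ι → V) (hv : ∀ i, ‖v i‖ ≤ 1) (i : ι) :
    sumMap (𝕜 := 𝕜) v hv (e 𝕜 i) = v i := by
  rw [sumMap_apply, tsum_eq_single i]
  · rw [e_apply]; simp
  · intro j hj
    rw [e_apply]; simp [hj]

omit [CompleteSpace V] in
/-- A bounded operator on `ℓ¹` is bounded by its values at the unit vectors. -/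
theorem norm_apply_le (T : L1 𝕜 ι →L[𝕜] V) (C : ℝ) (hT : ∀ i, ‖T (e 𝕜 i)‖ ≤ C) (a : L1 𝕜 ι) :
    ‖T a‖ ≤ C * ‖a‖ := by
  have h1 : HasSum (fun i => lp.single 1 i (a i)) a :=
    lp.hasSum_single (by norm_num) a
  have h2 : HasSum (fun i => T (lp.single 1 i (a i))) (T a) := h1.mapL T
  have h3 : ∀ i, T (lp.single 1 i (a i)) = a i • T (e 𝕜 i) := by
    intro i
    rw [← map_smul]
    congr 1
    unfold e
    rw [← lp.single_smul]
    simp
  have h4 : ∀ i, ‖T (lp.single 1 i (a i))‖ ≤ C * ‖a i‖ := by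
    intro i
    rw [h3, norm_smul, mul_comm]
    exact mul_le_mul_of_nonneg_right (hT i) (norm_nonneg _)
  rw [norm_eq, ← tsum_mul_left]
  rw [← h2.tsum_eq]
  refine tsum_of_norm_bounded ((summable_norm a).mul_left C).hasSum h4

end L1

/-! ### Property alpha gives density of the norm-attaining operators -/

section Dense

variable {𝕜 : Type*} [RCLike 𝕜] {X Z : Type*} [NormedAddCommGroup X] [NormedSpace 𝕜 X]
  [NormedAddCommGroup Z] [NormedSpace 𝕜 Z] {ι : Type*}

theorem dense_of_alpha [Nonempty ι] (x : ι → X) (f : ι → X →L[𝕜] 𝕜)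
    (h0 : ∀ (T : X →L[𝕜] Z) (C : ℝ), 0 ≤ C → (∀ i, ‖T (x i)‖ ≤ C) → ‖T‖ ≤ C)
    (h1 : ∀ i, ‖x i‖ = 1) (h2 : ∀ i, f i (x i) = 1) (h3 : ∀ i j, i ≠ j → ‖f i (x j)‖ ≤ 1 / 2)
    (h4 : ∀ i, ‖f i‖ ≤ 1) :
    Dense {T : X →L[𝕜] Z | ∃ u : X, ‖u‖ = 1 ∧ ‖T u‖ = ‖T‖} := by
  rw [Metric.dense_iff]
  intro T r hr
  by_cases hT : T = 0
  · refine ⟨0, ?_, ?_⟩
    · rw [hT]; exact Metric.mem_ball_self hr
    · obtain ⟨i⟩ := (inferInstance : Nonempty ι)
      exact ⟨x i, h1 i, by simp⟩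
  have hTpos : 0 < ‖T‖ := norm_pos_iff.2 hT
  set ε : ℝ := r / (2 * (‖T‖ + 1)) with hε
  have hε0 : 0 < ε := by positivity
  obtain ⟨i, hi⟩ : ∃ i, ‖T‖ / (1 + ε / 2) < ‖T (x i)‖ := by
    by_contra hcon
    push Not at hcon
    have := h0 T (‖T‖ / (1 + ε / 2)) (by positivity) hcon
    rw [le_div_iff₀ (by positivity)] at this
    nlinarith
  rw [div_lt_iff₀ (by positivity)] at hi
  set S : X →L[𝕜] Z := T + (ε : 𝕜) • (f i).smulRight (T (x i)) with hS
  have hSapp : ∀ u, S u = T u + ((ε : 𝕜) * f i u) • T (x i) := by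
    intro u
    simp [hS, mul_smul]
  have hSi : ‖S (x i)‖ = (1 + ε) * ‖T (x i)‖ := by
    rw [hSapp, h2, mul_one]
    have : T (x i) + (ε : 𝕜) • T (x i) = ((1 + ε : ℝ) : 𝕜) • T (x i) := by
      push_cast
      rw [add_smul, one_smul]
    rw [this, norm_smul, RCLike.norm_ofReal, abs_of_pos (by positivity)]
  have hSle : ‖S‖ ≤ (1 + ε) * ‖T (x i)‖ := by
    apply h0 S _ (by positivity)
    intro j
    by_cases hj : i = j
    · rw [← hj, hSi]
    · rw [hSapp]
      have e1 : ‖T (x j)‖ ≤ ‖T‖ := by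
        have := T.le_opNorm (x j)
        rwa [h1, mul_one] at this
      have e2 : ‖((ε : 𝕜) * f i (x j)) • T (x i)‖ ≤ ε * (1 / 2) * ‖T (x i)‖ := by
        rw [norm_smul, norm_mul, RCLike.norm_ofReal, abs_of_pos hε0]
        apply mul_le_mul_of_nonneg_right _ (norm_nonneg _)
        exact mul_le_mul_of_nonneg_left (h3 i j hj) hε0.le
      have e3 := norm_add_le (T (x j)) (((ε : 𝕜) * f i (x j)) • T (x i))
      nlinarith
  refine ⟨S, ?_, x i, h1 i, ?_⟩
  · rw [Metric.mem_ball, dist_eq_norm]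
    have e1 : S - T = (ε : 𝕜) • (f i).smulRight (T (x i)) := by
      rw [hS]; abel
    rw [e1, norm_smul, RCLike.norm_ofReal, abs_of_pos hε0]
    have e2 : ‖(f i).smulRight (T (x i))‖ ≤ ‖T‖ := by
      rw [ContinuousLinearMap.norm_smulRight_apply]
      have := T.le_opNorm (x i)
      rw [h1, mul_one] at this
      calc ‖f i‖ * ‖T (x i)‖ ≤ 1 * ‖T‖ :=
            mul_le_mul (h4 i) this (norm_nonneg _) zero_le_one
        _ = ‖T‖ := one_mul _
    calc ε * ‖(f i).smulRight (T (x i))‖ ≤ ε * ‖T‖ := mul_le_mul_of_nonneg_left e2 hε0.le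
      _ < r := by
        rw [hε, div_mul_eq_mul_div, div_lt_iff₀ (by positivity)]
        nlinarith
  · apply le_antisymm
    · have := S.le_opNorm (x i)
      rwa [h1, mul_one] at this
    · rw [hSi]; exact hSle

end Dense

end Pool.Agent.Y282.PA
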